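import Pool.Agent.KLI.Problem

/-!
# The functions `E` and `Y` (record minima of `σ(n)/n` among integers with `KL(n) > 0`)

`S n` is the sum of the divisors of `n`, `Lg n = ∑_{d ∣ n} d log (d / φ d)`, `E n = Lg n / S n`
and `Y n = log (S n / n)`.  Both `E` and `Y` are additive on coprime products, and
`KL n = S n (E n - log 2)`.
-/

namespace Pool.Agent.KLI

open Finset

/-- `∑_{d ∣ n} d log (d / φ d)`. -/
noncomputable def Lg (n : ℕ) : ℝ :=
  ∑ d ∈ n.divisors, (d : ℝ) * Real.log ((d : ℝ) / (Nat.totient d : ℝ))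

/-- The additive function `Lg / S`. -/
noncomputable def E (n : ℕ) : ℝ := Lg n / S n

/-- The additive function `log (σ(n)/n)`. -/
noncomputable def Y (n : ℕ) : ℝ := Real.log (S n / n)

theorem sum_divisors_coprime {m n : ℕ} (h : m.Coprime n) (f : ℕ → ℝ) :
    ∑ d ∈ (m * n).divisors, f d = ∑ a ∈ m.divisors, ∑ b ∈ n.divisors, f (a * b) := by
  rw [Nat.divisors_mul, Finset.mul_def, Finset.sum_image h.mul_injOn_divisors,
    Finset.sum_product]

theorem S_pos {n : ℕ} (h : 0 < n) : 0 < S n := by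
  unfold S
  apply Finset.sum_pos
  · intro d hd
    exact_mod_cast Nat.pos_of_mem_divisors hd
  · exact ⟨1, Nat.one_mem_divisors.mpr h.ne'⟩

theorem S_one : S 1 = 1 := by simp [S]

theorem E_one : E 1 = 0 := by simp [E, Lg]

theorem Y_one : Y 1 = 0 := by simp [Y, S]

theorem S_mul {m n : ℕ} (h : m.Coprime n) : S (m * n) = S m * S n := by
  unfold S
  rw [sum_divisors_coprime h, Finset.sum_mul_sum]
  simp

theorem Lg_mul {m n : ℕ} (h : m.Coprime n) : Lg (m * n) = Lg m * S n + S m * Lg n := by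
  unfold Lg S
  rw [sum_divisors_coprime h, Finset.sum_mul_sum, Finset.sum_mul_sum, ← Finset.sum_add_distrib]
  apply Finset.sum_congr rfl
  intro a ha
  rw [← Finset.sum_add_distrib]
  apply Finset.sum_congr rfl
  intro b hb
  have ha0 : 0 < a := Nat.pos_of_mem_divisors ha
  have hb0 : 0 < b := Nat.pos_of_mem_divisors hb
  have hab : a.Coprime b :=
    (h.coprime_dvd_left (Nat.dvd_of_mem_divisors ha)).coprime_dvd_right (Nat.dvd_of_mem_divisors hb)
  have hta : (0 : ℝ) < (Nat.totient a : ℝ) := by exact_mod_cast Nat.totient_pos.mpr ha0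
  have htb : (0 : ℝ) < (Nat.totient b : ℝ) := by exact_mod_cast Nat.totient_pos.mpr hb0
  have ha' : (0 : ℝ) < (a : ℝ) := by exact_mod_cast ha0
  have hb' : (0 : ℝ) < (b : ℝ) := by exact_mod_cast hb0
  rw [Nat.totient_mul hab]
  push_cast
  rw [mul_div_mul_comm, Real.log_mul (by positivity) (by positivity)]
  ring

theorem E_mul {m n : ℕ} (hm : 0 < m) (hn : 0 < n) (h : m.Coprime n) :
    E (m * n) = E m + E n := by
  have h1 := S_pos hm
  have h2 := S_pos hn
  unfold E
  rw [Lg_mul h, S_mul h]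
  field_simp

theorem Y_mul {m n : ℕ} (hm : 0 < m) (hn : 0 < n) (h : m.Coprime n) :
    Y (m * n) = Y m + Y n := by
  have h1 := S_pos hm
  have h2 := S_pos hn
  have h3 : (0 : ℝ) < (m : ℝ) := by exact_mod_cast hm
  have h4 : (0 : ℝ) < (n : ℝ) := by exact_mod_cast hn
  unfold Y
  rw [S_mul h]
  push_cast
  rw [mul_div_mul_comm, Real.log_mul (by positivity) (by positivity)]

theorem KL_eq (n : ℕ) : KL n = Lg n - Real.log 2 * S n := by
  unfold KL Lg S
  rw [Finset.mul_sum, ← Finset.sum_sub_distrib]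
  apply Finset.sum_congr rfl
  intro d hd
  have hd0 : 0 < d := Nat.pos_of_mem_divisors hd
  have hd' : (0 : ℝ) < (d : ℝ) := by exact_mod_cast hd0
  have ht : (0 : ℝ) < (Nat.totient d : ℝ) := by exact_mod_cast Nat.totient_pos.mpr hd0
  have h1 : (d : ℝ) / (2 * (Nat.totient d : ℝ)) = ((d : ℝ) / (Nat.totient d : ℝ)) / 2 := by
    field_simp
  rw [h1, Real.log_div (by positivity) (by norm_num)]
  ring

theorem KL_pos_iff {n : ℕ} (hn : 0 < n) : 0 < KL n ↔ Real.log 2 < E n := by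
  have h1 := S_pos hn
  rw [KL_eq]
  unfold E
  rw [lt_div_iff₀ h1]
  constructor <;> intro h <;> linarith

/-! ### Prime powers -/

/-- The value of `E` at `p ^ a`. -/
theorem S_prime_pow {p : ℕ} (hp : p.Prime) (a : ℕ) :
    S (p ^ a) = ∑ k ∈ Finset.range (a + 1), (p : ℝ) ^ k := by
  unfold S
  rw [Nat.divisors_prime_pow hp, Finset.sum_map]
  simp

theorem S_prime_pow_mul {p : ℕ} (hp : p.Prime) (a : ℕ) :
    S (p ^ a) * ((p : ℝ) - 1) = (p : ℝ) ^ (a + 1) - 1 := by
  rw [S_prime_pow hp, geom_sum_mul]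

theorem Lg_prime_pow {p : ℕ} (hp : p.Prime) (a : ℕ) :
    Lg (p ^ a) = (S (p ^ a) - 1) * Real.log ((p : ℝ) / ((p : ℝ) - 1)) := by
  rw [S_prime_pow hp]
  unfold Lg
  rw [Nat.divisors_prime_pow hp, Finset.sum_map]
  rw [Finset.sum_range_succ', Finset.sum_range_succ' (fun k => (p : ℝ) ^ k)]
  simp only [Function.Embedding.coeFn_mk, pow_zero, Nat.cast_one, Nat.totient_one, div_one,
    Real.log_one, mul_zero, add_zero, add_sub_cancel_right]
  rw [Finset.sum_mul]
  apply Finset.sum_congr rfl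
  intro k _
  have hp1 : (1 : ℝ) < (p : ℝ) := by exact_mod_cast hp.one_lt
  have hp0 : (0 : ℝ) < (p : ℝ) := by linarith
  have hk : Nat.totient (p ^ (k + 1)) = p ^ k * (p - 1) := Nat.totient_prime_pow_succ hp k
  have hpc : (((p - 1 : ℕ)) : ℝ) = (p : ℝ) - 1 := by
    rw [Nat.cast_sub hp.one_lt.le]; simp
  rw [hk]
  push_cast
  rw [hpc]
  congr 2
  have : (p : ℝ) - 1 ≠ 0 := by linarith
  field_simp
  ring

theorem E_prime_pow {p : ℕ} (hp : p.Prime) (a : ℕ) :
    E (p ^ a) = Real.log ((p : ℝ) / ((p : ℝ) - 1)) * (1 - 1 / S (p ^ a)) := by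
  have h1 : 0 < S (p ^ a) := S_pos (pow_pos hp.pos a)
  unfold E
  rw [Lg_prime_pow hp]
  field_simp

end Pool.Agent.KLI
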