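import Mathlib

/-!
# Primality certificates
-/

namespace Pool.Agent.KLI

/-- Fast modular exponentiation. -/
def pmAux (p : ℕ) : ℕ → ℕ → ℕ → ℕ
  | 0, _, _ => 1 % p
  | f + 1, b, e =>
    if e % 2 = 0 then pmAux p f (b * b % p) (e / 2)
    else (b * pmAux p f (b * b % p) (e / 2)) % p

theorem pmAux_eq (p : ℕ) : ∀ f b e : ℕ, e < 2 ^ f → pmAux p f b e = b ^ e % p := by
  intro f
  induction f with
  | zero =>
    intro b e he
    have : e = 0 := by simpa using he
    subst this
    simp [pmAux]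
  | succ f ih =>
    intro b e he
    have he2 : e / 2 < 2 ^ f := by
      rw [Nat.div_lt_iff_lt_mul (by norm_num)]
      rw [pow_succ] at he
      exact he
    have hb : (b * b % p) ^ (e / 2) % p = (b ^ (2 * (e / 2))) % p := by
      rw [← Nat.pow_mod, pow_mul, pow_two]
    simp only [pmAux]
    rw [ih _ _ he2, hb]
    split_ifs with h
    · congr 2
      omega
    · rw [Nat.mul_mod, Nat.mod_mod, ← Nat.mul_mod, ← pow_succ']
      congr 2
      omega

theorem prime_of (p a f : ℕ) (fs : List ℕ) (h1 : 1 < p) (hpf : p < 2 ^ f)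
    (hdvd : (p - 1) ∣ fs.prod ^ 100) (hfs : ∀ q ∈ fs, q.Prime)
    (ha : pmAux p f a (p - 1) = 1)
    (hne : ∀ q ∈ fs, pmAux p f a ((p - 1) / q) ≠ 1) : p.Prime := by
  have key : ∀ e : ℕ, e ≤ p - 1 → (((a : ZMod p) ^ e = 1) ↔ pmAux p f a e = 1) := by
    intro e he
    rw [pmAux_eq p f a e (by omega)]
    have h2 : ((a : ZMod p) ^ e = 1) ↔ (((a ^ e : ℕ) : ZMod p) = ((1 : ℕ) : ZMod p)) := by
      push_cast
      rfl
    rw [h2, ZMod.natCast_eq_natCast_iff', Nat.mod_eq_of_lt h1]
  apply lucas_primality p (a : ZMod p) ((key _ le_rfl).mpr ha)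
  intro q hq hqd
  have h3 : q ∣ fs.prod := hq.dvd_of_dvd_pow (hqd.trans hdvd)
  obtain ⟨r, hr, hqr⟩ := (Nat.Prime.prime hq).dvd_prod_iff.mp h3
  have h4 : q = r := (Nat.prime_dvd_prime_iff_eq hq (hfs r hr)).mp hqr
  subst h4
  rw [Ne, key _ (Nat.div_le_self _ _)]
  exact hne q hr

theorem gap (lo hi q : ℕ) (l : List ℕ) (hl : ∀ d ∈ l, 2 ≤ d ∧ d < lo)
    (h : ∀ k < hi - lo, lo + k = q ∨ ∃ d ∈ l, (lo + k) % d = 0) :
    ∀ p : ℕ, p.Prime → lo ≤ p → p < hi → p = q := by
  intro p hp h1 h2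
  obtain ⟨k, rfl⟩ := Nat.exists_eq_add_of_le h1
  rcases h k (by omega) with h3 | ⟨d, hd, hdk⟩
  · exact h3
  · exfalso
    obtain ⟨hd2, hdl⟩ := hl d hd
    rcases (Nat.dvd_prime hp).mp (Nat.dvd_of_mod_eq_zero hdk) with h4 | h4 <;> omega

theorem prime_4592774273 : Nat.Prime 4592774273 :=
  prime_of 4592774273 3 34 [2, 43, 827, 1009] (by norm_num) (by norm_num) (by decide +kernel)
    (by simp only [List.mem_cons, List.not_mem_nil, or_false, forall_eq_or_imp, forall_eq]; norm_num)
    (by decide +kernel) (by decide +kernel)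

theorem prime_263181260437 : Nat.Prime 263181260437 :=
  prime_of 263181260437 2 40 [2, 3, 71, 107, 2886899] (by norm_num) (by norm_num) (by decide +kernel)
    (by simp only [List.mem_cons, List.not_mem_nil, or_false, forall_eq_or_imp, forall_eq]; norm_num)
    (by decide +kernel) (by decide +kernel)

theorem prime_p7 : Nat.Prime 382630830258999409 :=
  prime_of 382630830258999409 7 60 [2, 3, 29, 67, 263, 1609, 2027, 4783] (by norm_num) (by norm_num)
    (by decide +kernel)
    (by simp only [List.mem_cons, List.not_mem_nil, or_false, forall_eq_or_imp, forall_eq]; norm_num)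
    (by decide +kernel) (by decide +kernel)

theorem prime_p8 : Nat.Prime 20390518223138934083371564793857 :=
  prime_of 20390518223138934083371564793857 5 110 [2, 3, 7, 47, 947, 2903, 3259] (by norm_num)
    (by norm_num) (by decide +kernel)
    (by simp only [List.mem_cons, List.not_mem_nil, or_false, forall_eq_or_imp, forall_eq]; norm_num)
    (by decide +kernel) (by decide +kernel)

theorem prime_p9 : Nat.Prime 40392796109160158857117 :=
  prime_of 40392796109160158857117 2 80 [2, 3, 7, 11, 491, 3061, 3917, 12799, 17581] (by norm_num)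
    (by norm_num) (by decide +kernel)
    (by simp only [List.mem_cons, List.not_mem_nil, or_false, forall_eq_or_imp, forall_eq]; norm_num)
    (by decide +kernel) (by decide +kernel)

theorem prime_p10 : Nat.Prime 6015042335875269671743482165491610419201 :=
  prime_of 6015042335875269671743482165491610419201 3 140 [2, 5, 11, 17, 29, 89, 5927, 17393]
    (by norm_num) (by norm_num) (by decide +kernel)
    (by simp only [List.mem_cons, List.not_mem_nil, or_false, forall_eq_or_imp, forall_eq]; norm_num)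
    (by decide +kernel) (by decide +kernel)

theorem gap_a : ∀ p : ℕ, p.Prime → 4592774218 ≤ p → p < 4592774309 → p = 4592774273 :=
  gap _ _ _ [2, 3, 5, 7, 11, 13, 17, 19, 31, 71, 79, 163, 257, 311, 317, 359, 757, 1217, 4261, 5333,
    13807, 46279] (by decide +kernel) (by decide +kernel)

theorem gap_b : ∀ p : ℕ, p.Prime → 263181260436 ≤ p → p < 263181260467 → p = 263181260437 :=
  gap _ _ _ [2, 3, 5, 7, 11, 13, 19, 31, 37] (by decide +kernel) (by decide +kernel)

theorem gap_c : ∀ p : ℕ, p.Prime → 2716473 ≤ p → p < 2716523 → p = 2716501 :=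
  gap _ _ _ [2, 3, 5, 7, 13, 17, 19, 23, 29, 31, 61, 139, 557] (by decide +kernel)
    (by decide +kernel)

theorem gap_d : ∀ p : ℕ, p.Prime → 171647 ≤ p → p < 171659 → p = 171653 :=
  gap _ _ _ [2, 3, 5, 7, 17] (by decide +kernel) (by decide +kernel)

theorem gap_e : ∀ p : ℕ, p.Prime → 401 ≤ p → p < 409 → p = 401 :=
  gap _ _ _ [2, 3, 5, 7, 11, 13, 17, 19] (by decide +kernel) (by decide +kernel)

theorem gap_f : ∀ p : ℕ, p.Prime → 22 ≤ p → p < 29 → p = 23 :=
  gap _ _ _ [2, 3, 5] (by decide +kernel) (by decide +kernel)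

theorem gap_g : ∀ p : ℕ, p.Prime → 4 ≤ p → p < 7 → p = 5 :=
  gap _ _ _ [2, 3] (by decide +kernel) (by decide +kernel)

theorem gap_h : ∀ p : ℕ, p.Prime → 1429 ≤ p → p < 1433 → p = 1429 :=
  gap _ _ _ [2, 3, 5, 7, 11, 13, 17, 19] (by decide +kernel) (by decide +kernel)

theorem gap_i : ∀ p : ℕ, p.Prime → 91 ≤ p → p < 101 → p = 97 :=
  gap _ _ _ [2, 3, 5, 7] (by decide +kernel) (by decide +kernel)

theorem gap_j : ∀ p : ℕ, p.Prime → 15 ≤ p → p < 19 → p = 17 :=
  gap _ _ _ [2, 3] (by decide +kernel) (by decide +kernel)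

theorem gap_k : ∀ p : ℕ, p.Prime → 7 ≤ p → p < 11 → p = 7 :=
  gap _ _ _ [2, 3] (by decide +kernel) (by decide +kernel)

theorem gap_l : ∀ p : ℕ, p.Prime → 5 ≤ p → p < 7 → p = 5 :=
  gap _ _ _ [2, 3] (by decide +kernel) (by decide +kernel)

theorem gap_m : ∀ p : ℕ, p.Prime → 3 ≤ p → p < 5 → p = 3 :=
  gap _ _ _ [2] (by decide +kernel) (by decide +kernel)

end Pool.Agent.KLI
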