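import Pool.Agent.KLI.Logs
import Pool.Agent.KLI.Primes

/-!
# The chain of forced primes, even case (generated)
-/

namespace Pool.Agent.KLI

theorem even_chain {n : ℕ} (hn : 0 < n) (hE : Real.log 2 < E n)
    (hY : Y n ≤ (632842766540643331357191582447609613783924188066698940644443 / 10 ^ 60)) :
    ∃ m : ℕ, n = 2 * (5 * (23 * (401 * (171653 * (4592774273 * m))))) ∧
      St m 4592774309 (2613485168780381992961790449029904809269917 / 10 ^ 60) (2613485168780381992961792264439438833056690 / 10 ^ 60) ∧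
      Y n = Real.log (1 + 1 / ((2 : ℕ) : ℝ)) + Real.log (1 + 1 / ((5 : ℕ) : ℝ)) + Real.log (1 + 1 / ((23 : ℕ) : ℝ)) + Real.log (1 + 1 / ((401 : ℕ) : ℝ)) + Real.log (1 + 1 / ((171653 : ℕ) : ℝ)) + Real.log (1 + 1 / ((4592774273 : ℕ) : ℝ)) + Y m := by
  have hL2 : ((693147180559945309417232121458176568075500134360255254120652 / 10 ^ 60) : ℝ) ≤ Real.log 2 := by
    have h := lg_1.1
    have e : (1 : ℝ) + 1 / ((1 : ℕ) : ℝ) = 2 := by norm_num
    rw [e] at h
    refine le_trans (le_of_eq ?_) h
    norm_num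
  have s0 : St n 2 (693147180559945309417232121458176568075500134360255254120652 / 10 ^ 60) (632842766540643331357191582447609613783924188066698940644443 / 10 ^ 60) :=
    ⟨hn, fun p hp _ => hp.two_le, lt_of_le_of_lt hL2 hE, hY⟩
  have hy2 : (55 / 100 : ℝ) ≤ Real.log (1 + 1 / ((2 : ℕ) : ℝ) + 1 / ((2 : ℕ) : ℝ) ^ 2) := by
    have h := log_lower (a := 4 / 3) (by norm_num) 2
    have e : (1 : ℝ) + 1 / ((2 : ℕ) : ℝ) + 1 / ((2 : ℕ) : ℝ) ^ 2 = 1 + 1 / (4 / 3) := by norm_num
    rw [e]
    refine le_trans ?_ h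
    norm_num [ps, Finset.sum_range_succ]
  have hx0 := xq_le (q := 2) (a := 1) (by norm_num) (by norm_num) lg_1.2
  obtain ⟨m1, e1, -, s1, -, y1⟩ := s0.step (q := 2) (P'' := 3) (κ := (1 / (2 * ((3 : ℕ) : ℝ) * (((3 : ℕ) : ℝ) - 1))))
    (y2 := 55 / 100) (L' := (231049060186648436472410707152725522691833378120085084706842 / 10 ^ 60)) (B' := (227377658432478949379178466983260477211933764604204743030452 / 10 ^ 60)) (by norm_num) (fun p hp _ hlt => by have := hp.two_le; omega)
    (ratio_one (P := 3) (by norm_num)) (by norm_num) hy2 (by norm_num)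
    (by refine le_trans ?_ (sub_le_sub_left hx0 _); norm_num)
    (by refine le_trans (sub_le_sub_left lg_2.1 _) ?_; norm_num)
  have t1 : ∀ p : ℕ, p.Prime → p ∣ m1 → 4 ≤ p := s1.thr (by norm_num) (by norm_num)
  obtain ⟨m2, e2, -, s2, -, y2⟩ := s1.stepN 5 4 7
    (κ := (1 / (2 * ((7 : ℕ) : ℝ) * (((7 : ℕ) : ℝ) - 1))))
    (L' := (45096100758140306667164798561196769879665806830079073314087 / 10 ^ 60))
    (B' := (45056101638524323167460441828745844014544426689717759087738 / 10 ^ 60))
    (by norm_num) (by norm_num) (fun p hp hpm hlt => gap_g p hp (t1 p hp hpm) hlt)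
    (ratio_one (P := 7) (by norm_num)) (by norm_num) (by norm_num) lg_4.2 (by norm_num) lg_5.1 (by norm_num)
  have t2 : ∀ p : ℕ, p.Prime → p ∣ m2 → 22 ≤ p := s2.thr (by norm_num) (by norm_num)
  obtain ⟨m3, e3, -, s3, -, y3⟩ := s2.stepN 23 22 29
    (κ := (1 / (2 * ((29 : ℕ) : ℝ) ^ 2)))
    (L' := (2496494961091212561570046690426946440541368893264232015497 / 10 ^ 60))
    (B' := (2496487219728394327271672341886553582933780626638286989648 / 10 ^ 60))
    (by norm_num) (by norm_num) (fun p hp hpm hlt => gap_f p hp (t2 p hp hpm) hlt)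
    (ratio_two (P := 29) (by norm_num)) (by norm_num) (by norm_num) lg_22.2 (by norm_num) lg_23.1 (by norm_num)
  have t3 : ∀ p : ℕ, p.Prime → p ∣ m3 → 401 ≤ p := s3.thr (by norm_num) (by norm_num)
  obtain ⟨m4, e4, -, s4, -, y4⟩ := s3.stepN 401 400 409
    (κ := (1 / (2 * ((409 : ℕ) : ℝ) ^ 2)))
    (L' := (5825907276618553925753255671871839998174715025766201348 / 10 ^ 60))
    (B' := (5825907276519695401404946811261170947506161520049085771 / 10 ^ 60))
    (by norm_num) (by norm_num) (fun p hp hpm hlt => gap_e p hp (t3 p hp hpm) hlt)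
    (ratio_two (P := 409) (by norm_num)) (by norm_num) (by norm_num) lg_400.2 (by norm_num) lg_401.1 (by norm_num)
  have t4 : ∀ p : ℕ, p.Prime → p ∣ m4 → 171647 ≤ p := s4.thr (by norm_num) (by norm_num)
  obtain ⟨m5, e5, -, s5, -, y5⟩ := s4.stepN 171653 171652 171659
    (κ := (1 / (2 * ((171659 : ℕ) : ℝ) ^ 2)))
    (L' := (217733324664589015616902239754397510467413809672991 / 10 ^ 60))
    (B' := (217733324664589015611741110911909568135649543673802 / 10 ^ 60))
    (by norm_num) (by norm_num) (fun p hp hpm hlt => gap_d p hp (t4 p hp hpm) hlt)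
    (ratio_two (P := 171659) (by norm_num)) (by norm_num) (by norm_num) lg_171652.2 (by norm_num) lg_171653.1 (by norm_num)
  have t5 : ∀ p : ℕ, p.Prime → p ∣ m5 → 4592774218 ≤ p := s5.thr (by norm_num) (by norm_num)
  obtain ⟨m6, e6, -, s6, -, y6⟩ := s5.stepN 4592774273 4592774272 4592774309
    (κ := (1 / (2 * ((4592774309 : ℕ) : ℝ) ^ 2)))
    (L' := (2613485168780381992961790449029904809269917 / 10 ^ 60))
    (B' := (2613485168780381992961792264439438833056690 / 10 ^ 60))
    prime_4592774273 (by norm_num) (fun p hp hpm hlt => gap_a p hp (t5 p hp hpm) hlt)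
    (ratio_two (P := 4592774309) (by norm_num)) (by norm_num) (by norm_num) lg_4592774272.2 (by norm_num) lg_4592774273.1 (by norm_num)
  refine ⟨m6, ?_, s6, ?_⟩
  · rw [e1, e2, e3, e4, e5, e6]
  · rw [y1, y2, y3, y4, y5, y6]
    ring

theorem even_budget {n : ℕ} (hn : 0 < n) (h : S n / n < (188295578177717073767318041144311632306512 / 10 ^ 41 : ℝ)) :
    Y n ≤ (632842766540643331357191582447609613783924188066698940644443 / 10 ^ 60) := by
  have hn' : (0 : ℝ) < (n : ℝ) := by exact_mod_cast hn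
  have hS := S_pos hn
  have h0 : 0 < S n / n := by positivity
  have hle : S n / n ≤ (1 + 1 / ((2 : ℕ) : ℝ)) * (1 + 1 / ((5 : ℕ) : ℝ)) * (1 + 1 / ((23 : ℕ) : ℝ)) * (1 + 1 / ((401 : ℕ) : ℝ)) * (1 + 1 / ((171653 : ℕ) : ℝ)) * (1 + 1 / ((4592774273 : ℕ) : ℝ)) * (1 + 1 / (38263083025899222888075705790429233970053679 / 10 ^ 26 : ℝ)) :=
    h.le.trans (by norm_num)
  have hM := log_upper (a := (38263083025899222888075705790429233970053679 / 10 ^ 26 : ℝ)) (by norm_num) 1
  have hM2 : Real.log (1 + 1 / (38263083025899222888075705790429233970053679 / 10 ^ 26 : ℝ)) ≤ (2613485168780381992961792264439438833056578 / 10 ^ 60) := by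
    refine hM.trans ?_
    norm_num [ps, Finset.sum_range_succ]
  have hlog := Real.log_le_log h0 hle
  rw [Real.log_mul (by norm_num) (by norm_num), Real.log_mul (by norm_num) (by norm_num), Real.log_mul (by norm_num) (by norm_num), Real.log_mul (by norm_num) (by norm_num), Real.log_mul (by norm_num) (by norm_num), Real.log_mul (by norm_num) (by norm_num)] at hlog
  unfold Y
  refine hlog.trans ?_
  have z2 := lg_2.2
  have z5 := lg_5.2
  have z23 := lg_23.2
  have z401 := lg_401.2
  have z171653 := lg_171653.2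
  have z4592774273 := lg_4592774273.2
  have key : ((405465108108164381978013115464349136571990423462494197614034 : ℕ) : ℝ) / ((10 ^ 60 : ℕ) : ℝ) + ((182321556793954626211718025154514633197389337914486983942743 : ℕ) : ℝ) / ((10 ^ 60 : ℕ) : ℝ) + ((42559614418795928840188769486859290431610646063079472098109 : ℕ) : ℝ) / ((10 ^ 60 : ℕ) : ℝ) + ((2490661312451874631870267395075292411986274465118237903888 : ℕ) : ℝ) / ((10 ^ 60 : ℕ) : ℝ) + ((5825689543195030812389335070150259037938025870505411975 : ℕ) : ℝ) / ((10 ^ 60 : ℕ) : ℝ) + ((217733322051103846831359117950117303696210710617116 : ℕ) : ℝ) / ((10 ^ 60 : ℕ) : ℝ) + (2613485168780381992961792264439438833056578 / 10 ^ 60) ≤ ((632842766540643331357191582447609613783924188066698940644443 / 10 ^ 60) : ℝ) := by norm_num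
  linarith

end Pool.Agent.KLI
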