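import Pool.Agent.KLI.Num

/-!
# Fine tuning with large primes and the exchange inequality
-/

namespace Pool.Agent.KLI

open Finset

theorem le_xq_real {P : ℝ} (hP : 2 ≤ P) : 2 * P / ((2 * P - 1) * (P + 1)) ≤ xq P := by
  have h0 : 0 < P - 1 := by linarith
  have h := two_div_le_log (q := P - 1) h0
  have h1 : 1 + 1 / (P - 1) = P / (P - 1) := by field_simp; ring
  rw [h1] at h
  unfold xq
  have h2 : 2 * P / ((2 * P - 1) * (P + 1)) = 2 / (2 * (P - 1) + 1) * (P / (P + 1)) := by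
    have h3 : 2 * (P - 1) + 1 = 2 * P - 1 := by ring
    have h4 : (2 * P - 1) ≠ 0 := by linarith
    have h5 : P + 1 ≠ 0 := by linarith
    rw [h3]
    field_simp
  rw [h2]
  apply mul_le_mul_of_nonneg_right h
  apply div_nonneg <;> linarith

theorem xq_upper {P : ℝ} (hP : 2 ≤ P) : xq P ≤ (2 * P - 1) / (2 * (P ^ 2 - 1)) := by
  have h0 : 0 < P - 1 := by linarith
  have h1 : 0 < P + 1 := by linarith
  have hP0 : 0 < P := by linarith
  have h := log_ratio_le (N := P) (by linarith)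
  unfold xq
  have h2 : (2 * P - 1) / (2 * (P ^ 2 - 1)) = (2 * P - 1) / (2 * P * (P - 1)) * (P / (P + 1)) := by
    have h3 : P ^ 2 - 1 = (P - 1) * (P + 1) := by ring
    rw [h3]
    field_simp
  rw [h2]
  apply mul_le_mul_of_nonneg_right h
  positivity

theorem xq_anti {P t : ℝ} (ht : 2 ≤ t) (hP : t ≤ P) : xq P ≤ (2 * t - 1) / (2 * (t ^ 2 - 1)) := by
  refine (xq_upper (ht.trans hP)).trans ?_
  have h1 : 0 < t ^ 2 - 1 := by nlinarith
  have h2 : 0 < P ^ 2 - 1 := by nlinarith
  rw [div_le_div_iff₀ (by positivity) (by positivity)]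
  nlinarith [mul_nonneg (sub_nonneg.mpr hP) (sub_nonneg.mpr ht), mul_nonneg (sub_nonneg.mpr hP) (mul_nonneg (sub_nonneg.mpr ht) (by linarith : (0:ℝ) ≤ P)),
    mul_nonneg (sub_nonneg.mpr hP) (mul_nonneg (by linarith : (0:ℝ) ≤ t) (by linarith : (0:ℝ) ≤ P))]

theorem log_le_xq {p : ℝ} (hp : 2 ≤ p) : Real.log (1 + 1 / p) ≤ xq p := by
  have hp0 : 0 < p := by linarith
  have h := log_ratio_le (N := p + 1) (by linarith)
  have e : (p + 1) / (p + 1 - 1) = 1 + 1 / p := by
    rw [add_sub_cancel_right]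
    field_simp
  rw [e] at h
  refine h.trans (le_trans ?_ (le_xq_real hp))
  have h1 : 0 < 2 * p - 1 := by linarith
  have e2 : p + 1 - 1 = p := by ring
  rw [e2, div_le_div_iff₀ (by positivity) (by positivity)]
  nlinarith [mul_pos hp0 hp0, mul_pos (mul_pos hp0 hp0) hp0]

theorem E_Y_prod (F : Finset ℕ) (hF : ∀ p ∈ F, p.Prime) :
    0 < ∏ p ∈ F, p ∧ E (∏ p ∈ F, p) = ∑ p ∈ F, xq (p : ℝ) ∧
      Y (∏ p ∈ F, p) ≤ ∑ p ∈ F, xq (p : ℝ) := by
  classical
  induction F using Finset.induction_on with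
  | empty => simp [E_one, Y_one]
  | insert a s ha ih =>
    obtain ⟨h0, h1, h2⟩ := ih (fun p hp => hF p (Finset.mem_insert_of_mem hp))
    have hap : a.Prime := hF a (Finset.mem_insert_self a s)
    have hco : a.Coprime (∏ p ∈ s, p) := by
      apply Nat.Coprime.prod_right
      intro i hi
      apply (Nat.coprime_primes hap (hF i (Finset.mem_insert_of_mem hi))).mpr
      rintro rfl
      exact ha hi
    rw [Finset.prod_insert ha, Finset.sum_insert ha]
    have hEa : E a = xq (a : ℝ) := by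
      have := E_prime hap
      rwa [pow_one] at this
    have hYa : Y a ≤ xq (a : ℝ) := by
      have := Y_prime hap
      rw [pow_one] at this
      rw [this]
      exact log_le_xq (by exact_mod_cast hap.two_le)
    refine ⟨Nat.mul_pos hap.pos h0, ?_, ?_⟩
    · rw [E_mul hap.pos h0 hco, hEa, h1]
    · rw [Y_mul hap.pos h0 hco]
      linarith

/-- Fine tuning: sums of `xq p` over large primes approximate every `r ≥ 0` from above. -/
theorem fine_tune (N : ℕ) {r ε : ℝ} (hr : 0 ≤ r) (hε : 0 < ε) :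
    ∃ F : Finset ℕ, (∀ p ∈ F, p.Prime ∧ N < p) ∧ r < ∑ p ∈ F, xq (p : ℝ) ∧
      ∑ p ∈ F, xq (p : ℝ) < r + ε := by
  classical
  obtain ⟨N1, hN1⟩ := exists_nat_gt (1 / ε)
  set N' : ℕ := N + N1 + 2 with hN'
  set g : ℕ → ℝ := fun n => if n.Prime ∧ N' < n then xq (n : ℝ) else 0 with hg
  have hdiv := not_summable_one_div_on_primes
  have hnn : ∀ n : ℕ, 0 ≤ Set.indicator {p : ℕ | p.Prime} (fun n : ℕ => (1 : ℝ) / n) n := by
    intro n
    apply Set.indicator_nonneg
    intro x _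
    positivity
  have htend := (not_summable_iff_tendsto_nat_atTop_of_nonneg hnn).mp hdiv
  set ind : ℕ → ℝ := Set.indicator {p : ℕ | p.Prime} (fun n : ℕ => (1 : ℝ) / n) with hind
  have hge : ∀ n : ℕ, 1 / 2 * (ind n - if n ≤ N' then ind n else 0) ≤ g n := by
    intro n
    by_cases hn : n ≤ N'
    · rw [if_pos hn, sub_self, mul_zero]
      have : ¬ (n.Prime ∧ N' < n) := fun h => absurd h.2 (by omega)
      simp only [hg, if_neg this, le_refl]
    · rw [if_neg hn, sub_zero]
      by_cases hp : n.Prime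
      · have h1 : ind n = 1 / n := by
          rw [hind, Set.indicator_of_mem]
          exact hp
        have h2 : g n = xq (n : ℝ) := by
          simp only [hg]
          rw [if_pos ⟨hp, by omega⟩]
        rw [h1, h2]
        have hn2 : (2 : ℝ) ≤ (n : ℝ) := by exact_mod_cast hp.two_le
        refine le_trans ?_ (le_xq_real hn2)
        have h3 : 0 < 2 * (n : ℝ) - 1 := by linarith
        have h4 : (1 : ℝ) / 2 * (1 / (n : ℝ)) = 1 / (2 * n) := by field_simp
        rw [h4, div_le_div_iff₀ (by positivity) (by positivity)]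
        nlinarith
      · have h1 : ind n = 0 := by
          rw [hind, Set.indicator_of_notMem]
          exact hp
        have h2 : g n = 0 := by
          simp only [hg]
          rw [if_neg (fun h => hp h.1)]
        rw [h1, h2]
        norm_num
  obtain ⟨k0, hk0⟩ : ∃ k : ℕ, r < ∑ i ∈ range k, g i := by
    set C : ℝ := ∑ i ∈ range (N' + 1), ind i with hC
    obtain ⟨k, hk⟩ := (Filter.tendsto_atTop.mp htend (2 * r + C + 1)).exists
    refine ⟨k, ?_⟩
    have h1 : ∑ i ∈ range k, (1 / 2 * (ind i - if i ≤ N' then ind i else 0)) ≤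
        ∑ i ∈ range k, g i := Finset.sum_le_sum (fun i _ => hge i)
    rw [← Finset.mul_sum, Finset.sum_sub_distrib] at h1
    have h2 : ∑ i ∈ range k, (if i ≤ N' then ind i else 0) ≤ C := by
      rw [← Finset.sum_filter, hC]
      apply Finset.sum_le_sum_of_subset_of_nonneg
      · intro i hi
        simp only [Finset.mem_filter, Finset.mem_range] at hi ⊢
        omega
      · intro i _ _
        exact hnn i
    linarith
  have hex : ∃ k : ℕ, r < ∑ i ∈ range k, g i := ⟨k0, hk0⟩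
  obtain ⟨k, hk, hmin⟩ : ∃ k : ℕ, r < ∑ i ∈ range k, g i ∧
      ∀ j < k, ¬ r < ∑ i ∈ range j, g i :=
    ⟨Nat.find hex, Nat.find_spec hex, fun j hj => Nat.find_min hex hj⟩
  have hkpos : 0 < k := by
    rcases Nat.eq_zero_or_pos k with h0 | h0
    · subst h0
      simp at hk
      linarith
    · exact h0
  obtain ⟨k', rfl⟩ : ∃ k', k = k' + 1 := ⟨k - 1, by omega⟩
  have hk' := hmin k' (by omega)
  push Not at hk'
  have hgk : g k' < ε := by
    simp only [hg]
    split_ifs with h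
    · have h2 : (2 : ℝ) ≤ (k' : ℝ) := by exact_mod_cast h.1.two_le
      have h3 : (N1 : ℝ) < (k' : ℝ) := by
        have : N1 < k' := by omega
        exact_mod_cast this
      have h4 := xq_upper h2
      have h5 : (2 * (k' : ℝ) - 1) / (2 * ((k' : ℝ) ^ 2 - 1)) ≤ 1 / k' := by
        rw [div_le_div_iff₀ (by nlinarith) (by linarith)]
        nlinarith
      have h6 : 1 / (k' : ℝ) < ε := by
        rw [div_lt_iff₀ (by linarith)]
        rw [div_lt_iff₀ hε] at hN1
        nlinarith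
      linarith
    · exact hε
  refine ⟨(range (k' + 1)).filter (fun n => n.Prime ∧ N' < n), ?_, ?_, ?_⟩
  · intro p hp
    simp only [Finset.mem_filter, Finset.mem_range] at hp
    exact ⟨hp.2.1, by omega⟩
  · rw [Finset.sum_filter]
    exact hk
  · rw [Finset.sum_filter]
    have : ∑ i ∈ range (k' + 1), g i = ∑ i ∈ range k', g i + g k' := Finset.sum_range_succ _ _
    have h2 : (∑ a ∈ range (k' + 1), if a.Prime ∧ N' < a then xq (a : ℝ) else 0) =
        ∑ i ∈ range (k' + 1), g i := rfl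
    rw [h2, this]
    linarith

/-- An admissible constraint (no constraint, or oddness). -/
structure Adm (C : ℕ → Prop) : Prop where
  one : C 1
  dvd : ∀ {d n : ℕ}, d ∣ n → C n → C d
  mul : ∀ {d : ℕ} (F : Finset ℕ), C d → (∀ p ∈ F, p.Prime ∧ 2 < p) → C (d * ∏ p ∈ F, p)

theorem adm_true : Adm (fun _ => True) := ⟨trivial, fun _ _ => trivial, fun _ _ _ => trivial⟩

theorem adm_odd : Adm (fun n => Odd n) := by
  refine ⟨odd_one, fun h hn => hn.of_dvd_nat h, fun {d} F hd hF => hd.mul ?_⟩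
  apply Finset.prod_induction (fun p : ℕ => p) (fun n => Odd n) (fun a b ha hb => ha.mul hb) odd_one
  intro p hp
  exact (hF p hp).1.odd_of_ne_two (by have := (hF p hp).2; omega)

/-- Multiplying `m` by large primes to reach a given level from above. -/
theorem extend {C : ℕ → Prop} (hC : Adm C) {m : ℕ} (hm : 0 < m) (hCm : C m)
    (hle : E m ≤ Real.log 2) {ε : ℝ} (hε : 0 < ε) :
    ∃ n : ℕ, 0 < n ∧ C n ∧ Real.log 2 < E n ∧ Y n < Real.log 2 - (E m - Y m) + ε := by
  obtain ⟨F, hF, hF1, hF2⟩ := fine_tune (m + 2) (r := Real.log 2 - E m) (by linarith) hε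
  obtain ⟨hP0, hPE, hPY⟩ := E_Y_prod F (fun p hp => (hF p hp).1)
  have hco : m.Coprime (∏ p ∈ F, p) := by
    apply Nat.Coprime.prod_right
    intro i hi
    obtain ⟨hip, hin⟩ := hF i hi
    rw [Nat.coprime_comm, Nat.Prime.coprime_iff_not_dvd hip]
    intro hd
    have h1 := Nat.le_of_dvd hm hd
    omega
  refine ⟨m * ∏ p ∈ F, p, Nat.mul_pos hm hP0, hC.mul F hCm (fun p hp => ⟨(hF p hp).1, by
    have := (hF p hp).2; omega⟩), ?_, ?_⟩
  · rw [E_mul hm hP0 hco]
    linarith
  · rw [Y_mul hm hP0 hco]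
    linarith

theorem Y_prime_pow_pos {p a : ℕ} (hp : p.Prime) (ha : 1 ≤ a) : 0 < Y (p ^ a) := by
  have h1 := Y_prime_pow_ge hp ha
  have h2 := Y_prime hp
  have h3 : (0 : ℝ) < (p : ℝ) := by exact_mod_cast hp.pos
  have h4 := two_div_le_log h3
  have h5 : 0 < 2 / (2 * (p : ℝ) + 1) := by positivity
  linarith

/-- The exchange inequality.  If no `n'` (subject to the constraint `C`) has `Y n' < Y n`, the
excess `E n - log 2` is at most `E (p^a) - Y (p^a)` for every prime power exactly dividing `n`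
(here `n = p ^ a * m` with `p ∤ m`). -/
theorem exchange {C : ℕ → Prop} (hC : Adm C) {n : ℕ} (hn : 0 < n) (hCn : C n)
    (hmin : ∀ n' : ℕ, 0 < n' → C n' → Real.log 2 < E n' → Y n ≤ Y n')
    {p : ℕ} (hp : p.Prime) (hpn : p ∣ n) :
    ∃ a : ℕ, 1 ≤ a ∧ E n - Real.log 2 ≤ E (p ^ a) - Y (p ^ a) := by
  obtain ⟨b, m, hm, hm0, he, hEn, hYn⟩ := split hp hn
  have hb : 1 ≤ b := by
    rcases Nat.eq_zero_or_pos b with h0 | h0
    · subst h0
      rw [pow_zero, one_mul] at he
      exact absurd (he ▸ hpn) hm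
    · exact h0
  have hmn : m ∣ n := he ▸ dvd_mul_left _ _
  have hYp : 0 < Y (p ^ b) := Y_prime_pow_pos hp hb
  refine ⟨b, hb, ?_⟩
  by_contra hlt
  push Not at hlt
  rcases lt_or_ge (Real.log 2) (E m) with hneg | hnn
  · have := hmin m hm0 (hC.dvd hmn hCn) hneg
    linarith
  · obtain ⟨n', hn', hCn', hEn', hYn'⟩ := extend hC hm0 (hC.dvd hmn hCn) hnn
      (ε := (E n - Real.log 2) - (E (p ^ b) - Y (p ^ b))) (by linarith)
    have h1 := hmin n' hn' hCn' hEn'
    linarith

/-- Every large integer has a large prime power exactly dividing it. -/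
theorem exists_large_prime_pow {K n : ℕ} (hn : 0 < n) (hK : (K + 1) ^ (K + 1) < n) :
    ∃ p a m : ℕ, p.Prime ∧ 1 ≤ a ∧ K < p ^ a ∧ ¬ p ∣ m ∧ 0 < m ∧ n = p ^ a * m := by
  classical
  by_contra hcon
  push Not at hcon
  have h1 : ∀ p ∈ n.primeFactors, p ^ (n.factorization p) ≤ K := by
    intro p hp
    have hpp := Nat.prime_of_mem_primeFactors hp
    by_contra hlt
    push Not at hlt
    have hpa : 1 ≤ n.factorization p :=
      (hpp.factorization_pos_of_dvd hn.ne' (Nat.dvd_of_mem_primeFactors hp))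
    exact hcon p (n.factorization p) (n / p ^ n.factorization p) hpp hpa hlt
      (Nat.not_dvd_ordCompl hpp hn.ne') (Nat.ordCompl_pos p hn.ne')
      (Nat.ordProj_mul_ordCompl_eq_self n p).symm
  have h2 : n = ∏ p ∈ n.primeFactors, p ^ (n.factorization p) :=
    (Nat.prod_factorization_pow_eq_self hn.ne').symm
  have h3 : ∏ p ∈ n.primeFactors, p ^ (n.factorization p) ≤ ∏ _p ∈ n.primeFactors, (K + 1) :=
    Finset.prod_le_prod' (fun p hp => (h1 p hp).trans (Nat.le_succ K))
  rw [Finset.prod_const] at h3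
  have h4 : n.primeFactors.card ≤ K + 1 := by
    have : n.primeFactors ⊆ Finset.range (K + 1) := by
      intro p hp
      have hpp := Nat.prime_of_mem_primeFactors hp
      have hpa : 1 ≤ n.factorization p :=
        (hpp.factorization_pos_of_dvd hn.ne' (Nat.dvd_of_mem_primeFactors hp))
      have h5 : p ≤ p ^ n.factorization p := by
        calc p = p ^ 1 := (pow_one p).symm
          _ ≤ p ^ n.factorization p := Nat.pow_le_pow_right hpp.pos hpa
      have := h1 p hp
      rw [Finset.mem_range]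
      omega
    calc _ ≤ (Finset.range (K + 1)).card := Finset.card_le_card this
      _ = K + 1 := Finset.card_range _
  have h6 : (K + 1) ^ n.primeFactors.card ≤ (K + 1) ^ (K + 1) :=
    Nat.pow_le_pow_right (by omega) h4
  rw [← h2] at h3
  omega

/-- If there are arbitrarily large records, the infimum is approached by numbers with
`E m ≤ log 2`, penalised by their deficit. -/
theorem infinite_imp {C : ℕ → Prop} (hC : Adm C)
    (hinf : ∀ K : ℕ, ∃ n : ℕ, K < n ∧ C n ∧ Real.log 2 < E n ∧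
      ∀ m : ℕ, 0 < m → C m → Real.log 2 < E m → m < n → Y n < Y m)
    {n : ℕ} (hn : 0 < n) (hCn : C n) (hE : Real.log 2 < E n) :
    ∃ m : ℕ, 0 < m ∧ C m ∧ E m ≤ Real.log 2 ∧ Real.log 2 - (E m - Y m) < Y n := by
  obtain ⟨n1, hn1, hC1, hE1, hrec1⟩ := hinf n
  have hY1 : Y n1 < Y n := hrec1 n hn hCn hE hn1
  obtain ⟨K, hK⟩ := exists_nat_gt (1 / (Y n - Y n1))
  obtain ⟨n2, hn2, hC2, hE2, hrec2⟩ := hinf (max n1 ((K + 3 + 1) ^ (K + 3 + 1)))
  have hn2' : n1 < n2 := lt_of_le_of_lt (le_max_left _ _) hn2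
  have hn2K : (K + 3 + 1) ^ (K + 3 + 1) < n2 := lt_of_le_of_lt (le_max_right _ _) hn2
  have hY2 : Y n2 < Y n1 := hrec2 n1 (by omega) hC1 hE1 hn2'
  obtain ⟨p, a, m, hp, ha, hpa, hm, hm0, he⟩ := exists_large_prime_pow (by omega) hn2K
  have hqa : 0 < p ^ a := pow_pos hp.pos a
  have hc : (p ^ a).Coprime m := Nat.Coprime.pow_left a ((Nat.Prime.coprime_iff_not_dvd hp).mpr hm)
  have hEm : E n2 = E (p ^ a) + E m := by rw [he]; exact E_mul hqa hm0 hc
  have hYm : Y n2 = Y (p ^ a) + Y m := by rw [he]; exact Y_mul hqa hm0 hc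
  have hYp := Y_prime_pow_pos hp ha
  have hmdvd : m ∣ n2 := he ▸ dvd_mul_left _ _
  have hmlt : m < n2 := by
    have h1 : 2 ≤ p ^ a := by
      calc 2 ≤ p := hp.two_le
        _ = p ^ 1 := (pow_one p).symm
        _ ≤ p ^ a := Nat.pow_le_pow_right hp.pos ha
    rw [he]
    nlinarith
  have hEm2 : E m ≤ Real.log 2 := by
    by_contra hlt
    push Not at hlt
    have := hrec2 m hm0 (hC.dvd hmdvd hC2) hlt hmlt
    linarith
  refine ⟨m, hm0, hC.dvd hmdvd hC2, hEm2, ?_⟩
  have hd := delta_le hp a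
  -- `E(p^a) - Y(p^a) ≤ 1/p^a`
  have hp2 : (2 : ℝ) ≤ (p : ℝ) := by exact_mod_cast hp.two_le
  have hd2 : E (p ^ a) - Y (p ^ a) ≤ 1 / ((p ^ a : ℕ) : ℝ) := by
    refine hd.trans ?_
    push_cast
    set P : ℝ := (p : ℝ) with hP
    have hW : 1 ≤ P ^ a := one_le_pow₀ (by linarith)
    have hN : P ^ (a + 1) = P * P ^ a := by rw [pow_succ]; ring
    rw [hN]
    set W : ℝ := P ^ a with hWdef
    have hPW : 2 ≤ P * W := by nlinarith
    have h1 : 1 / (2 * P) + 1 / (6 * P ^ 2) + 1 / (3 * P ^ 3) ≤ 1 / 2 := by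
      have h2 : 1 / (2 * P) ≤ 1 / (2 * 2) := by
        apply one_div_le_one_div_of_le <;> linarith
      have h3 : 1 / (6 * P ^ 2) ≤ 1 / (6 * 2 ^ 2) := by
        apply one_div_le_one_div_of_le (by norm_num)
        have : (2 : ℝ) ^ 2 ≤ P ^ 2 := pow_le_pow_left₀ (by norm_num) hp2 2
        linarith
      have h4 : 1 / (3 * P ^ 3) ≤ 1 / (3 * 2 ^ 3) := by
        apply one_div_le_one_div_of_le (by norm_num)
        have : (2 : ℝ) ^ 3 ≤ P ^ 3 := pow_le_pow_left₀ (by norm_num) hp2 3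
        linarith
      have e : (1 : ℝ) / (2 * 2) + 1 / (6 * 2 ^ 2) + 1 / (3 * 2 ^ 3) ≤ 1 / 2 := by norm_num
      linarith
    have h5 : 0 < 1 / (2 * (P * W)) := by positivity
    have hW0 : 0 < W := by linarith
    rw [div_le_div_iff₀ (by linarith) hW0, one_mul]
    have h6 : (1 / (2 * P) + 1 / (6 * P ^ 2) + 1 / (3 * P ^ 3) - 1 / (2 * (P * W))) * W ≤
        1 / 2 * W := mul_le_mul_of_nonneg_right (by linarith) hW0.le
    nlinarith
  have hd3 : 1 / ((p ^ a : ℕ) : ℝ) < Y n - Y n1 := by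
    have h1 : (K : ℝ) < ((p ^ a : ℕ) : ℝ) := by
      have : K < p ^ a := by omega
      exact_mod_cast this
    have h2 : (0 : ℝ) < ((p ^ a : ℕ) : ℝ) := by exact_mod_cast hqa
    have h3 : 0 < Y n - Y n1 := by linarith
    rw [div_lt_iff₀ h2]
    rw [div_lt_iff₀ h3] at hK
    nlinarith
  linarith

end Pool.Agent.KLI
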