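import Pool.Agent.KLI.Step

/-!
# Certified bounds of logarithms
-/

namespace Pool.Agent.KLI

open Finset

/-- Partial sums of the series of `log (1 + 1/a)`, `w = 1/(2a+1)`. -/
noncomputable def ps (w : ℝ) (K : ℕ) : ℝ :=
  ∑ k ∈ range K, 2 * (1 / (2 * (k : ℝ) + 1)) * w ^ (2 * k + 1)

theorem log_lower {a : ℝ} (ha : 0 < a) (K : ℕ) : ps (1 / (2 * a + 1)) K ≤ Real.log (1 + 1 / a) := by
  have h := Real.hasSum_log_one_add_inv ha
  rw [one_div a]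
  unfold ps
  apply sum_le_hasSum _ _ h
  intro i _
  positivity

theorem log_upper {a : ℝ} (ha : 1 ≤ a) (K : ℕ) :
    Real.log (1 + 1 / a) ≤ ps (1 / (2 * a + 1)) K +
      3 / (2 * (K : ℝ) + 1) * (1 / (2 * a + 1)) ^ (2 * K + 1) := by
  have h := Real.hasSum_log_one_add_inv (lt_of_lt_of_le one_pos ha)
  rw [one_div a]
  set w : ℝ := 1 / (2 * a + 1) with hw
  have hw0 : 0 < w := by positivity
  have hw3 : w ≤ 1 / 3 := by
    rw [hw]
    apply one_div_le_one_div_of_le <;> linarith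
  have hw2 : w ^ 2 ≤ 1 / 9 := by nlinarith
  have hsplit := (hasSum_nat_add_iff' (f := fun k : ℕ => (2 : ℝ) * (1 / (2 * k + 1)) * w ^ (2 * k + 1)) K).mpr h
  have hgeo : HasSum (fun k : ℕ => 2 / (2 * (K : ℝ) + 1) * w ^ (2 * K + 1) * (w ^ 2) ^ k)
      (2 / (2 * (K : ℝ) + 1) * w ^ (2 * K + 1) * (1 - w ^ 2)⁻¹) := by
    apply HasSum.mul_left
    apply hasSum_geometric_of_lt_one (by positivity)
    linarith
  have hle := hasSum_le (fun k => ?_) hsplit hgeo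
  · have h3 : (1 - w ^ 2)⁻¹ ≤ 3 / 2 := by
      rw [inv_le_comm₀ (by linarith) (by norm_num)]
      linarith
    have h4 : 2 / (2 * (K : ℝ) + 1) * w ^ (2 * K + 1) * (1 - w ^ 2)⁻¹ ≤
        2 / (2 * (K : ℝ) + 1) * w ^ (2 * K + 1) * (3 / 2) :=
      mul_le_mul_of_nonneg_left h3 (by positivity)
    have h5 : 2 / (2 * (K : ℝ) + 1) * w ^ (2 * K + 1) * (3 / 2) =
        3 / (2 * (K : ℝ) + 1) * w ^ (2 * K + 1) := by ring
    unfold ps
    linarith
  · show 2 * (1 / (2 * ((k + K : ℕ) : ℝ) + 1)) * w ^ (2 * (k + K) + 1) ≤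
      2 / (2 * (K : ℝ) + 1) * w ^ (2 * K + 1) * (w ^ 2) ^ k
    have e1 : w ^ (2 * (k + K) + 1) = w ^ (2 * K + 1) * (w ^ 2) ^ k := by
      rw [← pow_mul, ← pow_add]
      congr 1
      ring
    rw [e1]
    have e2 : 2 * (1 / (2 * ((k + K : ℕ) : ℝ) + 1)) ≤ 2 / (2 * (K : ℝ) + 1) := by
      rw [mul_one_div]
      apply div_le_div_of_nonneg_left (by norm_num) (by positivity)
      push_cast
      have : (0 : ℝ) ≤ (k : ℝ) := by positivity
      linarith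
    calc 2 * (1 / (2 * ((k + K : ℕ) : ℝ) + 1)) * (w ^ (2 * K + 1) * (w ^ 2) ^ k)
        ≤ 2 / (2 * (K : ℝ) + 1) * (w ^ (2 * K + 1) * (w ^ 2) ^ k) :=
          mul_le_mul_of_nonneg_right e2 (by positivity)
      _ = _ := by ring

/-- Integer version of the partial sums. -/
def lgS (D N : ℕ) : ℕ → ℕ
  | 0 => 0
  | k + 1 => lgS D N k + 2 * D / ((2 * k + 1) * N ^ (2 * k + 1))

theorem lgS_le (D N K : ℕ) (hN : 0 < N) :
    (lgS D N K : ℝ) ≤ D * ps (1 / (N : ℝ)) K ∧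
    D * ps (1 / (N : ℝ)) K ≤ (lgS D N K : ℝ) + K := by
  have hN' : (0 : ℝ) < (N : ℝ) := by exact_mod_cast hN
  induction K with
  | zero => simp [lgS, ps]
  | succ k ih =>
    obtain ⟨ih1, ih2⟩ := ih
    have e : ps (1 / (N : ℝ)) (k + 1) = ps (1 / (N : ℝ)) k +
        2 * (1 / (2 * (k : ℝ) + 1)) * (1 / (N : ℝ)) ^ (2 * k + 1) := by
      unfold ps
      rw [Finset.sum_range_succ]
    have h1 : (((2 * D / ((2 * k + 1) * N ^ (2 * k + 1)) : ℕ)) : ℝ) ≤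
        ((2 * D : ℕ) : ℝ) / (((2 * k + 1) * N ^ (2 * k + 1) : ℕ) : ℝ) := Nat.cast_div_le
    have h2 : ((2 * D : ℕ) : ℝ) / (((2 * k + 1) * N ^ (2 * k + 1) : ℕ) : ℝ) ≤
        (((2 * D / ((2 * k + 1) * N ^ (2 * k + 1)) : ℕ)) : ℝ) + 1 := by
      have hpos : (0 : ℝ) < (((2 * k + 1) * N ^ (2 * k + 1) : ℕ) : ℝ) := by positivity
      rw [div_le_iff₀ hpos]
      have hlt : 2 * D < (2 * D / ((2 * k + 1) * N ^ (2 * k + 1)) + 1) * ((2 * k + 1) * N ^ (2 * k + 1)) := by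
        apply Nat.lt_of_div_lt_div (c := (2 * k + 1) * N ^ (2 * k + 1))
        rw [Nat.mul_div_cancel _ (by positivity)]
        omega
      exact_mod_cast hlt.le
    have h3 : ((2 * D : ℕ) : ℝ) / (((2 * k + 1) * N ^ (2 * k + 1) : ℕ) : ℝ) =
        D * (2 * (1 / (2 * (k : ℝ) + 1)) * (1 / (N : ℝ)) ^ (2 * k + 1)) := by
      push_cast
      rw [one_div_pow]
      field_simp
    rw [h3] at h1 h2
    simp only [lgS]
    rw [e, mul_add]
    push_cast at *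
    constructor <;> linarith

theorem log_bd (a N K lo hi D : ℕ) (ha : 1 ≤ a) (hN : N = 2 * a + 1) (hD : 0 < D)
    (hlo : lo ≤ lgS D N K)
    (hhi : lgS D N K + K + 3 * D / ((2 * K + 1) * N ^ (2 * K + 1)) + 1 ≤ hi) :
    (lo : ℝ) / (D : ℝ) ≤ Real.log (1 + 1 / (a : ℝ)) ∧
    Real.log (1 + 1 / (a : ℝ)) ≤ (hi : ℝ) / (D : ℝ) := by
  have hD' : (0 : ℝ) < (D : ℝ) := by exact_mod_cast hD
  have hN0 : 0 < N := by omega
  have hN' : (0 : ℝ) < (N : ℝ) := by exact_mod_cast hN0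
  have hNa : 2 * (a : ℝ) + 1 = (N : ℝ) := by rw [hN]; push_cast; ring
  have ha1 : (1 : ℝ) ≤ (a : ℝ) := by exact_mod_cast ha
  obtain ⟨h1, h2⟩ := lgS_le D N K hN0
  have hl := log_lower (a := (a : ℝ)) (by linarith) K
  have hu := log_upper ha1 K
  rw [hNa] at hl hu
  constructor
  · rw [div_le_iff₀ hD']
    have : (lo : ℝ) ≤ (lgS D N K : ℝ) := by exact_mod_cast hlo
    have h3 : D * ps (1 / (N : ℝ)) K ≤ D * Real.log (1 + 1 / (a : ℝ)) :=
      mul_le_mul_of_nonneg_left hl hD'.le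
    linarith
  · rw [le_div_iff₀ hD']
    have h4 : D * Real.log (1 + 1 / (a : ℝ)) ≤ D * (ps (1 / (N : ℝ)) K +
      3 / (2 * (K : ℝ) + 1) * (1 / (N : ℝ)) ^ (2 * K + 1)) :=
      mul_le_mul_of_nonneg_left hu hD'.le
    have h5 : ((3 * D : ℕ) : ℝ) / (((2 * K + 1) * N ^ (2 * K + 1) : ℕ) : ℝ) ≤
        (((3 * D / ((2 * K + 1) * N ^ (2 * K + 1)) : ℕ)) : ℝ) + 1 := by
      have hpos : (0 : ℝ) < (((2 * K + 1) * N ^ (2 * K + 1) : ℕ) : ℝ) := by positivity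
      rw [div_le_iff₀ hpos]
      have hlt : 3 * D < (3 * D / ((2 * K + 1) * N ^ (2 * K + 1)) + 1) * ((2 * K + 1) * N ^ (2 * K + 1)) := by
        apply Nat.lt_of_div_lt_div (c := (2 * K + 1) * N ^ (2 * K + 1))
        rw [Nat.mul_div_cancel _ (by positivity)]
        omega
      exact_mod_cast hlt.le
    have h6 : ((3 * D : ℕ) : ℝ) / (((2 * K + 1) * N ^ (2 * K + 1) : ℕ) : ℝ) =
        D * (3 / (2 * (K : ℝ) + 1) * (1 / (N : ℝ)) ^ (2 * K + 1)) := by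
      push_cast
      rw [one_div_pow]
      field_simp
    rw [h6] at h5
    have h7 : ((lgS D N K + K + 3 * D / ((2 * K + 1) * N ^ (2 * K + 1)) + 1 : ℕ) : ℝ) ≤ (hi : ℝ) := by
      exact_mod_cast hhi
    push_cast at h7
    rw [mul_add] at h4
    linarith

end Pool.Agent.KLI
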