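import Pool.Agent.KLI.Logs
import Pool.Agent.KLI.Primes

/-!
# The chain of forced primes, odd case (generated)
-/

namespace Pool.Agent.KLI

theorem odd_chain {n : ℕ} (hn : 0 < n) (ho : Odd n) (hE : Real.log 2 < E n)
    (hY : Y n ≤ (671649849325821441272548928777848757660187306204223218221691 / 10 ^ 60)) :
    ∃ m : ℕ, n = 3 * (5 * (7 * (17 * (97 * (1429 * (2716501 * (263181260437 * m))))))) ∧
      St m 263181260467 (24756889750774717073623347838886585386 / 10 ^ 60) (24756889750774717073623347840255494054 / 10 ^ 60) ∧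
      Y n = Real.log (1 + 1 / ((3 : ℕ) : ℝ)) + Real.log (1 + 1 / ((5 : ℕ) : ℝ)) + Real.log (1 + 1 / ((7 : ℕ) : ℝ)) + Real.log (1 + 1 / ((17 : ℕ) : ℝ)) + Real.log (1 + 1 / ((97 : ℕ) : ℝ)) + Real.log (1 + 1 / ((1429 : ℕ) : ℝ)) + Real.log (1 + 1 / ((2716501 : ℕ) : ℝ)) + Real.log (1 + 1 / ((263181260437 : ℕ) : ℝ)) + Y m := by
  have hL2 : ((693147180559945309417232121458176568075500134360255254120652 / 10 ^ 60) : ℝ) ≤ Real.log 2 := by
    have h := lg_1.1
    have e : (1 : ℝ) + 1 / ((1 : ℕ) : ℝ) = 2 := by norm_num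
    rw [e] at h
    refine le_trans (le_of_eq ?_) h
    norm_num
  have s0 : St n 3 (693147180559945309417232121458176568075500134360255254120652 / 10 ^ 60) (671649849325821441272548928777848757660187306204223218221691 / 10 ^ 60) := by
    refine ⟨hn, fun p hp hpn => ?_, lt_of_le_of_lt hL2 hE, hY⟩
    have h1 := hp.two_le
    rcases Nat.lt_or_ge p 3 with h2 | h2
    · exfalso
      have h3 : p = 2 := by omega
      subst h3
      exact (Nat.not_even_iff_odd.mpr ho) (even_iff_two_dvd.mpr hpn)
    · exact h2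
  obtain ⟨m1, e1, -, s1, -, y1⟩ := s0.stepN 3 2 5
    (κ := (1 / (2 * ((5 : ℕ) : ℝ) * (((5 : ℕ) : ℝ) - 1))))
    (L' := (389048349478822022933722284859914715646507316763384605910126 / 10 ^ 60))
    (B' := (383967776874040513833329922784021326156677595306462161715040 / 10 ^ 60))
    (by norm_num) (by norm_num) (fun p hp hpm hlt => gap_m p hp (s0.ge p hp hpm) hlt)
    (ratio_one (P := 5) (by norm_num)) (by norm_num) (by norm_num) lg_2.2 (by norm_num) lg_3.1 (by norm_num)
  obtain ⟨m2, e2, -, s2, -, y2⟩ := s1.stepN 5 4 7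
    (κ := (1 / (2 * ((7 : ℕ) : ℝ) * (((7 : ℕ) : ℝ) - 1))))
    (L' := (203095390050313893128476376268385962834339745473378594517371 / 10 ^ 60))
    (B' := (201646220080085887621611897629506692959288257391975177772326 / 10 ^ 60))
    (by norm_num) (by norm_num) (fun p hp hpm hlt => gap_l p hp (s1.ge p hp hpm) hlt)
    (ratio_one (P := 7) (by norm_num)) (by norm_num) (by norm_num) lg_4.2 (by norm_num) lg_5.1 (by norm_num)
  obtain ⟨m3, e3, -, s3, -, y3⟩ := s2.stepN 7 6 11
    (κ := (1 / (2 * ((11 : ℕ) : ℝ) ^ 2)))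
    (L' := (68213545201462876872210414338718188034507462749379172238846 / 10 ^ 60))
    (B' := (68114827455563264475268276698156718369872583893070603869690 / 10 ^ 60))
    (by norm_num) (by norm_num) (fun p hp hpm hlt => gap_k p hp (s2.ge p hp hpm) hlt)
    (ratio_two (P := 11) (by norm_num)) (by norm_num) (by norm_num) lg_6.2 (by norm_num) lg_7.1 (by norm_num)
  have t3 : ∀ p : ℕ, p.Prime → p ∣ m3 → 15 ≤ p := s3.thr (by norm_num) (by norm_num)
  obtain ⟨m4, e4, -, s4, -, y4⟩ := s3.stepN 17 16 19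
    (κ := (1 / (2 * ((19 : ℕ) : ℝ) ^ 2)))
    (L' := (10956957930385525546082400744987939375316236223806722025123 / 10 ^ 60))
    (B' := (10956413615614652517080299268055276587594346473061233576869 / 10 ^ 60))
    (by norm_num) (by norm_num) (fun p hp hpm hlt => gap_j p hp (t3 p hp hpm) hlt)
    (ratio_two (P := 19) (by norm_num)) (by norm_num) (by norm_num) lg_16.2 (by norm_num) lg_17.1 (by norm_num)
  have t4 : ∀ p : ℕ, p.Prime → p ∣ m4 → 91 ≤ p := s4.thr (by norm_num) (by norm_num)
  obtain ⟨m5, e5, -, s5, -, y5⟩ := s4.stepN 97 96 101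
    (κ := (1 / (2 * ((101 : ℕ) : ℝ) ^ 2)))
    (L' := (699913619691458070310661800256741701432600668997574444507 / 10 ^ 60))
    (B' := (699913448425555005864312627480963046839655607864958513651 / 10 ^ 60))
    (by norm_num) (by norm_num) (fun p hp hpm hlt => gap_i p hp (t4 p hp hpm) hlt)
    (ratio_two (P := 101) (by norm_num)) (by norm_num) (by norm_num) lg_96.2 (by norm_num) lg_97.1 (by norm_num)
  have t5 : ∀ p : ℕ, p.Prime → p ∣ m5 → 1429 ≤ p := s5.thr (by norm_num) (by norm_num)
  obtain ⟨m6, e6, -, s6, -, y6⟩ := s5.stepN 1429 1428 1433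
    (κ := (1 / (2 * ((1433 : ℕ) : ℝ) ^ 2)))
    (L' := (368124339997349875962695998800609964450048067844898809 / 10 ^ 60))
    (B' := (368124339997324933444941604030852898448810338884273325 / 10 ^ 60))
    (by norm_num) (by norm_num) (fun p hp hpm hlt => gap_h p hp (t5 p hp hpm) hlt)
    (ratio_two (P := 1433) (by norm_num)) (by norm_num) (by norm_num) lg_1428.2 (by norm_num) lg_1429.1 (by norm_num)
  have t6 : ∀ p : ℕ, p.Prime → p ∣ m6 → 2716473 ≤ p := s6.thr (by norm_num) (by norm_num)
  obtain ⟨m7, e7, -, s7, -, y7⟩ := s6.stepN 2716501 2716500 2716523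
    (κ := (1 / (2 * ((2716523 : ℕ) : ℝ) ^ 2)))
    (L' := (3799662629262293026284912300061247585010359993555 / 10 ^ 60))
    (B' := (3799662629262293026284884871368049463850018118858 / 10 ^ 60))
    (by norm_num) (by norm_num) (fun p hp hpm hlt => gap_c p hp (t6 p hp hpm) hlt)
    (ratio_two (P := 2716523) (by norm_num)) (by norm_num) (by norm_num) lg_2716500.2 (by norm_num) lg_2716501.1 (by norm_num)
  have t7 : ∀ p : ℕ, p.Prime → p ∣ m7 → 263181260436 ≤ p := s7.thr (by norm_num) (by norm_num)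
  obtain ⟨m8, e8, -, s8, -, y8⟩ := s7.stepN 263181260437 263181260436 263181260467
    (κ := (1 / (2 * ((263181260467 : ℕ) : ℝ) ^ 2)))
    (L' := (24756889750774717073623347838886585386 / 10 ^ 60))
    (B' := (24756889750774717073623347840255494054 / 10 ^ 60))
    prime_263181260437 (by norm_num) (fun p hp hpm hlt => gap_b p hp (t7 p hp hpm) hlt)
    (ratio_two (P := 263181260467) (by norm_num)) (by norm_num) (by norm_num) lg_263181260436.2 (by norm_num) lg_263181260437.1 (by norm_num)
  refine ⟨m8, ?_, s8, ?_⟩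
  · rw [e1, e2, e3, e4, e5, e6, e7, e8]
  · rw [y1, y2, y3, y4, y5, y6, y7, y8]
    ring

theorem odd_budget {n : ℕ} (hn : 0 < n) (h : S n / n < (195746417894492885881916834768066886209421253240812 / 10 ^ 50 : ℝ)) :
    Y n ≤ (671649849325821441272548928777848757660187306204223218221691 / 10 ^ 60) := by
  have hn' : (0 : ℝ) < (n : ℝ) := by exact_mod_cast hn
  have hS := S_pos hn
  have h0 : 0 < S n / n := by positivity
  have hle : S n / n ≤ (1 + 1 / ((3 : ℕ) : ℝ)) * (1 + 1 / ((5 : ℕ) : ℝ)) * (1 + 1 / ((7 : ℕ) : ℝ)) * (1 + 1 / ((17 : ℕ) : ℝ)) * (1 + 1 / ((97 : ℕ) : ℝ)) * (1 + 1 / ((1429 : ℕ) : ℝ)) * (1 + 1 / ((2716501 : ℕ) : ℝ)) * (1 + 1 / ((263181260437 : ℕ) : ℝ)) * (1 + 1 / (4039279610916015858586737507245796569367559946057 / 10 ^ 26 : ℝ)) :=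
    h.le.trans (by norm_num)
  have hM := log_upper (a := (4039279610916015858586737507245796569367559946057 / 10 ^ 26 : ℝ)) (by norm_num) 1
  have hM2 : Real.log (1 + 1 / (4039279610916015858586737507245796569367559946057 / 10 ^ 26 : ℝ)) ≤ (24756889750774717073623347840255493910 / 10 ^ 60) := by
    refine hM.trans ?_
    norm_num [ps, Finset.sum_range_succ]
  have hlog := Real.log_le_log h0 hle
  rw [Real.log_mul (by norm_num) (by norm_num), Real.log_mul (by norm_num) (by norm_num), Real.log_mul (by norm_num) (by norm_num), Real.log_mul (by norm_num) (by norm_num), Real.log_mul (by norm_num) (by norm_num), Real.log_mul (by norm_num) (by norm_num), Real.log_mul (by norm_num) (by norm_num), Real.log_mul (by norm_num) (by norm_num)] at hlog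
  unfold Y
  refine hlog.trans ?_
  have z3 := lg_3.2
  have z5 := lg_5.2
  have z7 := lg_7.2
  have z17 := lg_17.2
  have z97 := lg_97.2
  have z1429 := lg_1429.2
  have z2716501 := lg_2716501.2
  have z263181260437 := lg_263181260437.2
  have key : ((287682072451780927439219005993827431503509710897761056506687 : ℕ) : ℝ) / ((10 ^ 60 : ℕ) : ℝ) + ((182321556793954626211718025154514633197389337914486983942743 : ℕ) : ℝ) / ((10 ^ 60 : ℕ) : ℝ) + ((133531392624522623146343620931349974589415673498904573902662 : ℕ) : ℝ) / ((10 ^ 60 : ℕ) : ℝ) + ((57158413839948611958187977430101441782278237420009370292841 : ℕ) : ℝ) / ((10 ^ 60 : ℕ) : ℝ) + ((10256500167189097511215986640574313540754690865196275063232 : ℕ) : ℝ) / ((10 ^ 60 : ℕ) : ℝ) + ((699545324085557680930867685876932193941206797526074240336 : ℕ) : ℝ) / ((10 ^ 60 : ℕ) : ℝ) + ((368120540334695671151915319145981530399346488866154472 : ℕ) : ℝ) / ((10 ^ 60 : ℕ) : ℝ) + ((3799662629237536136534110154294426116009762624808 : ℕ) : ℝ) / ((10 ^ 60 :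 ℕ) : ℝ) + (24756889750774717073623347840255493910 / 10 ^ 60) ≤ ((671649849325821441272548928777848757660187306204223218221691 / 10 ^ 60) : ℝ) := by norm_num
  linarith

end Pool.Agent.KLI
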