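import Mathlib

/-!
# The objects of the problem: `KL`, `h`, `A`, `T`, `To`
-/

namespace Pool.Agent.KLI

/-- The sum `σ(n)` of the divisors of `n`, as a real number. -/
noncomputable def S (n : ℕ) : ℝ := ∑ d ∈ n.divisors, (d : ℝ)

/-- `h(n) = σ(n)/n`. -/
noncomputable def h (n : ℕ) : ℝ := S n / n

/-- `KL(n) = ∑_{d ∣ n} d log (d / (2 φ(d)))`. -/
noncomputable def KL (n : ℕ) : ℝ :=
  ∑ d ∈ n.divisors, (d : ℝ) * Real.log ((d : ℝ) / (2 * (Nat.totient d : ℝ)))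

/-- The set of `n ≥ 1` with `KL(n) > 0`. -/
def A : Set ℕ := {n | 1 ≤ n ∧ 0 < KL n}

/-- The record minima of `h` on `A`. -/
def T : Set ℕ := {n | n ∈ A ∧ ∀ m ∈ A, m < n → h n < h m}

/-- The record minima of `h` on the odd members of `A`. -/
def To : Set ℕ := {n | n ∈ A ∧ Odd n ∧ ∀ m ∈ A, Odd m → m < n → h n < h m}

/-- The penalised value `h(n) exp(max(0, -KL(n)/σ(n)))`; it equals `h(n)` for `n ∈ A`. -/
noncomputable def pen (n : ℕ) : ℝ := h n * Real.exp (max 0 (-KL n / S n))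

end Pool.Agent.KLI
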