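import Pool.Agent.KLI.Defs

/-!
# Comparison of `E` and `Y` on prime powers
-/

namespace Pool.Agent.KLI

open Finset

theorem log_ratio_le {N : ℝ} (hN : 1 < N) :
    Real.log (N / (N - 1)) ≤ (2 * N - 1) / (2 * N * (N - 1)) := by
  have h0 : 0 < N - 1 := by linarith
  have hN0 : 0 < N := by linarith
  have hv : 0 < N / (N - 1) := by positivity
  have h1 : 0 ≤ Real.log (N / (N - 1)) := by
    apply Real.log_nonneg
    rw [le_div_iff₀ h0]
    linarith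
  have h2 := Real.self_le_sinh_iff.mpr h1
  rw [Real.sinh_log hv] at h2
  refine h2.trans (le_of_eq ?_)
  field_simp
  ring

theorem le_log_ratio {P : ℝ} (hP : 1 < P) :
    1 / P + 1 / (2 * P ^ 2) + 1 / (3 * P ^ 3) ≤ Real.log (P / (P - 1)) := by
  have h0 : 0 < P - 1 := by linarith
  have hP0 : 0 < P := by linarith
  have ht : |1 / P| < 1 := by
    rw [abs_of_pos (by positivity), div_lt_one hP0]
    exact hP
  have h1 := Real.hasSum_pow_div_log_of_abs_lt_one ht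
  have h2 : ∑ n ∈ range 3, (1 / P) ^ (n + 1) / ((n : ℝ) + 1) ≤ -Real.log (1 - 1 / P) := by
    apply sum_le_hasSum _ _ h1
    intro i _
    positivity
  have h3 : -Real.log (1 - 1 / P) = Real.log (P / (P - 1)) := by
    rw [← Real.log_inv]
    congr 1
    field_simp
  rw [h3] at h2
  refine le_trans (le_of_eq ?_) h2
  simp [Finset.sum_range_succ]
  field_simp
  ring

/-- Real data of a prime power. -/
theorem prime_pow_data {p : ℕ} (hp : p.Prime) (a : ℕ) :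
    E (p ^ a) = Real.log ((p : ℝ) / ((p : ℝ) - 1)) *
        (1 - ((p : ℝ) - 1) / ((p : ℝ) ^ (a + 1) - 1)) ∧
    Y (p ^ a) = Real.log ((p : ℝ) / ((p : ℝ) - 1)) -
        Real.log ((p : ℝ) ^ (a + 1) / ((p : ℝ) ^ (a + 1) - 1)) := by
  have hp1 : (1 : ℝ) < (p : ℝ) := by exact_mod_cast hp.one_lt
  have hp0 : (0 : ℝ) < (p : ℝ) := by linarith
  have hm : 0 < (p : ℝ) - 1 := by linarith
  have hN : 1 < (p : ℝ) ^ (a + 1) := one_lt_pow₀ hp1 (by omega)
  have hN1 : 0 < (p : ℝ) ^ (a + 1) - 1 := by linarith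
  have hS := S_prime_pow_mul hp a
  have hS' : S (p ^ a) = ((p : ℝ) ^ (a + 1) - 1) / ((p : ℝ) - 1) := by
    field_simp
    linarith
  constructor
  · rw [E_prime_pow hp, hS']
    field_simp
  · unfold Y
    rw [hS']
    push_cast
    rw [← Real.log_div (by positivity) (by positivity)]
    congr 1
    field_simp
    ring

theorem delta_le {p : ℕ} (hp : p.Prime) (a : ℕ) :
    E (p ^ a) - Y (p ^ a) ≤
      (1 / (2 * (p : ℝ)) + 1 / (6 * (p : ℝ) ^ 2) + 1 / (3 * (p : ℝ) ^ 3)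
        - 1 / (2 * (p : ℝ) ^ (a + 1))) / ((p : ℝ) ^ (a + 1) - 1) := by
  obtain ⟨hE, hY⟩ := prime_pow_data hp a
  have hp1 : (1 : ℝ) < (p : ℝ) := by exact_mod_cast hp.one_lt
  have hp0 : (0 : ℝ) < (p : ℝ) := by linarith
  have hm : 0 < (p : ℝ) - 1 := by linarith
  have hN : 1 < (p : ℝ) ^ (a + 1) := one_lt_pow₀ hp1 (by omega)
  rw [hE, hY]
  set P : ℝ := (p : ℝ) with hPdef
  set N : ℝ := P ^ (a + 1) with hNdef
  have hN1 : 0 < N - 1 := by linarith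
  have hN0 : 0 < N := by linarith
  have h1 := log_ratio_le hN
  have h2 := le_log_ratio hp1
  have h3 : (1 / P + 1 / (2 * P ^ 2) + 1 / (3 * P ^ 3)) * ((P - 1) / (N - 1)) ≤
      Real.log (P / (P - 1)) * ((P - 1) / (N - 1)) :=
    mul_le_mul_of_nonneg_right h2 (by positivity)
  have h4 : Real.log (P / (P - 1)) * (1 - (P - 1) / (N - 1)) -
      (Real.log (P / (P - 1)) - Real.log (N / (N - 1))) =
      Real.log (N / (N - 1)) - Real.log (P / (P - 1)) * ((P - 1) / (N - 1)) := by ring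
  rw [h4]
  have h5 : (2 * N - 1) / (2 * N * (N - 1)) -
      (1 / P + 1 / (2 * P ^ 2) + 1 / (3 * P ^ 3)) * ((P - 1) / (N - 1)) =
      (1 / (2 * P) + 1 / (6 * P ^ 2) + 1 / (3 * P ^ 3) - 1 / (2 * N)) / (N - 1) := by
    field_simp
    ring
  rw [← h5]
  linarith

/-- `Y (p ^ a)` for `a ≥ b`. -/
theorem Y_prime_pow_ge {p : ℕ} (hp : p.Prime) {a b : ℕ} (hab : b ≤ a) :
    Y (p ^ b) ≤ Y (p ^ a) := by
  obtain ⟨-, hYa⟩ := prime_pow_data hp a
  obtain ⟨-, hYb⟩ := prime_pow_data hp b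
  have hp1 : (1 : ℝ) < (p : ℝ) := by exact_mod_cast hp.one_lt
  have hNa : 1 < (p : ℝ) ^ (a + 1) := one_lt_pow₀ hp1 (by omega)
  have hNb : 1 < (p : ℝ) ^ (b + 1) := one_lt_pow₀ hp1 (by omega)
  have hle : (p : ℝ) ^ (b + 1) ≤ (p : ℝ) ^ (a + 1) := pow_le_pow_right₀ hp1.le (by omega)
  rw [hYa, hYb]
  have : Real.log ((p : ℝ) ^ (a + 1) / ((p : ℝ) ^ (a + 1) - 1)) ≤
      Real.log ((p : ℝ) ^ (b + 1) / ((p : ℝ) ^ (b + 1) - 1)) := by
    apply Real.log_le_log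
    · apply div_pos <;> linarith
    · rw [div_le_div_iff₀ (by linarith) (by linarith)]
      nlinarith
  linarith

theorem Y_prime {p : ℕ} (hp : p.Prime) : Y (p ^ 1) = Real.log (1 + 1 / (p : ℝ)) := by
  have hp0 : (0 : ℝ) < (p : ℝ) := by exact_mod_cast hp.pos
  unfold Y
  rw [S_prime_pow hp]
  congr 1
  simp [Finset.sum_range_succ]
  field_simp
  ring

theorem Y_prime_sq {p : ℕ} (hp : p.Prime) :
    Y (p ^ 2) = Real.log (1 + 1 / (p : ℝ) + 1 / (p : ℝ) ^ 2) := by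
  have hp0 : (0 : ℝ) < (p : ℝ) := by exact_mod_cast hp.pos
  unfold Y
  rw [S_prime_pow hp]
  congr 1
  simp [Finset.sum_range_succ]
  field_simp
  ring

/-- `x q = log (q/(q-1)) * q/(q+1)`, the value of `E` at a prime. -/
noncomputable def xq (q : ℝ) : ℝ := Real.log (q / (q - 1)) * (q / (q + 1))

theorem E_prime {p : ℕ} (hp : p.Prime) : E (p ^ 1) = xq (p : ℝ) := by
  obtain ⟨hE, -⟩ := prime_pow_data hp 1
  have hp1 : (1 : ℝ) < (p : ℝ) := by exact_mod_cast hp.one_lt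
  have hp0 : (0 : ℝ) < (p : ℝ) := by linarith
  rw [hE]
  unfold xq
  congr 1
  have h1 : (p : ℝ) ^ (1 + 1) - 1 = ((p : ℝ) - 1) * ((p : ℝ) + 1) := by ring
  have h2 : (p : ℝ) - 1 ≠ 0 := by linarith
  have h3 : (p : ℝ) + 1 ≠ 0 := by linarith
  rw [h1]
  field_simp
  ring

theorem two_div_le_log {q : ℝ} (hq : 0 < q) : 2 / (2 * q + 1) ≤ Real.log (1 + 1 / q) := by
  have h := Real.le_log_one_add_of_nonneg (x := 1 / q) (by positivity)
  refine le_trans (le_of_eq ?_) h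
  field_simp
  ring

/-- The ratio hypothesis: `E ≤ (1 + κ) Y` on powers of primes `≥ P`. -/
def Ratio (P : ℕ) (κ : ℝ) : Prop :=
  0 ≤ κ ∧ ∀ p : ℕ, p.Prime → P ≤ p → ∀ a : ℕ, 1 ≤ a → E (p ^ a) ≤ (1 + κ) * Y (p ^ a)

theorem ratio_aux {P : ℝ} (hP : 2 ≤ P) {N : ℝ} (hN : P ^ 3 ≤ N) :
    (1 / (2 * P) + 1 / (6 * P ^ 2) + 1 / (3 * P ^ 3) - 1 / (2 * N)) / (N - 1) ≤
      1 / (2 * P ^ 2) * (2 / (2 * P + 1)) := by
  have hP0 : 0 < P := by linarith
  have hP3 : 8 ≤ P ^ 3 := by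
    calc (8 : ℝ) = 2 ^ 3 := by norm_num
      _ ≤ P ^ 3 := pow_le_pow_left₀ (by norm_num) hP 3
  have hN0 : 0 < N := by linarith
  have h1 : (1 / (2 * P) + 1 / (6 * P ^ 2) + 1 / (3 * P ^ 3) - 1 / (2 * N)) / (N - 1) ≤
      (1 / (2 * P) + 1 / (6 * P ^ 2) + 1 / (3 * P ^ 3)) / (P ^ 3 - 1) := by
    apply div_le_div₀
    · positivity
    · have : 0 < 1 / (2 * N) := by positivity
      linarith
    · linarith
    · linarith
  refine h1.trans ?_
  have h2 : 0 < P ^ 3 - 1 := by linarith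
  have h3 : 1 / (2 * P) + 1 / (6 * P ^ 2) + 1 / (3 * P ^ 3) = (3 * P ^ 2 + P + 2) / (6 * P ^ 3) := by
    field_simp
    ring
  have h4 : 1 / (2 * P ^ 2) * (2 / (2 * P + 1)) = 1 / (P ^ 2 * (2 * P + 1)) := by
    field_simp
  rw [h3, h4, div_div, div_le_div_iff₀ (by positivity) (by positivity)]
  nlinarith [pow_pos hP0 2, pow_pos hP0 3, mul_nonneg (sub_nonneg.mpr hP) (pow_pos hP0 2).le,
    mul_nonneg (sub_nonneg.mpr hP) (pow_pos hP0 3).le, mul_nonneg (sub_nonneg.mpr hP) (pow_pos hP0 4).le,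
    mul_nonneg (sub_nonneg.mpr hP) (pow_pos hP0 5).le]

theorem ratio_one {P : ℕ} (hP : 2 ≤ P) : Ratio P (1 / (2 * (P : ℝ) * ((P : ℝ) - 1))) := by
  have hPr : (2 : ℝ) ≤ (P : ℝ) := by exact_mod_cast hP
  refine ⟨by apply div_nonneg <;> nlinarith, ?_⟩
  intro p hp hPp a ha
  have hpP : (P : ℝ) ≤ (p : ℝ) := by exact_mod_cast hPp
  have hp2 : (2 : ℝ) ≤ (p : ℝ) := by linarith
  have hY : 2 / (2 * (p : ℝ) + 1) ≤ Y (p ^ a) :=
    (two_div_le_log (by linarith)).trans ((Y_prime hp).symm.le.trans (Y_prime_pow_ge hp ha))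
  have hd := delta_le hp a
  have hk : 1 / (2 * (p : ℝ) * ((p : ℝ) - 1)) ≤ 1 / (2 * (P : ℝ) * ((P : ℝ) - 1)) := by
    apply one_div_le_one_div_of_le
    · nlinarith
    · nlinarith
  have hk0 : 0 < 1 / (2 * (p : ℝ) * ((p : ℝ) - 1)) := by
    apply div_pos one_pos
    nlinarith
  have hY0 : 0 < 2 / (2 * (p : ℝ) + 1) := by positivity
  suffices h : E (p ^ a) - Y (p ^ a) ≤ 1 / (2 * (p : ℝ) * ((p : ℝ) - 1)) * (2 / (2 * (p : ℝ) + 1)) by
    have h2 : 1 / (2 * (p : ℝ) * ((p : ℝ) - 1)) * (2 / (2 * (p : ℝ) + 1)) ≤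
        1 / (2 * (P : ℝ) * ((P : ℝ) - 1)) * Y (p ^ a) := by
      apply mul_le_mul hk hY hY0.le (by linarith)
    linarith
  refine hd.trans ?_
  set Q : ℝ := (p : ℝ) with hQ
  rcases Nat.lt_or_ge a 2 with h2 | h2
  · have ha1 : a = 1 := by omega
    subst ha1
    have e1 : (1 / (2 * Q) + 1 / (6 * Q ^ 2) + 1 / (3 * Q ^ 3) - 1 / (2 * Q ^ (1 + 1))) / (Q ^ (1 + 1) - 1)
        = (3 * Q ^ 2 - 2 * Q + 2) / (6 * Q ^ 3 * ((Q - 1) * (Q + 1))) := by
      have h3 : Q ^ (1 + 1) - 1 = (Q - 1) * (Q + 1) := by ring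
      have h4 : Q - 1 ≠ 0 := by linarith
      have h5 : Q + 1 ≠ 0 := by linarith
      have h6 : Q ≠ 0 := by linarith
      rw [h3]
      field_simp
      ring
    have h4 : 0 < Q - 1 := by linarith
    have hQ0 : 0 < Q := by linarith
    have e2 : 1 / (2 * Q * (Q - 1)) * (2 / (2 * Q + 1)) = 1 / (Q * (Q - 1) * (2 * Q + 1)) := by
      field_simp
    rw [e1, e2, div_le_div_iff₀ (by positivity) (by positivity)]
    have h5 : (3 * Q ^ 2 - 2 * Q + 2) * (2 * Q + 1) ≤ 6 * Q ^ 2 * (Q + 1) := by nlinarith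
    have h6 : 0 ≤ Q * (Q - 1) := by positivity
    nlinarith [mul_le_mul_of_nonneg_left h5 h6]
  · have hN : Q ^ 3 ≤ Q ^ (a + 1) := pow_le_pow_right₀ (by linarith) (by omega)
    refine (ratio_aux hp2 hN).trans ?_
    apply mul_le_mul_of_nonneg_right _ hY0.le
    apply one_div_le_one_div_of_le
    · nlinarith
    · nlinarith

theorem ratio_two {P : ℕ} (hP : 9 ≤ P) : Ratio P (1 / (2 * (P : ℝ) ^ 2)) := by
  have hPr : (9 : ℝ) ≤ (P : ℝ) := by exact_mod_cast hP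
  refine ⟨by positivity, ?_⟩
  intro p hp hPp a ha
  have hpP : (P : ℝ) ≤ (p : ℝ) := by exact_mod_cast hPp
  have hp2 : (9 : ℝ) ≤ (p : ℝ) := by linarith
  have hY : 2 / (2 * (p : ℝ) + 1) ≤ Y (p ^ a) :=
    (two_div_le_log (by linarith)).trans ((Y_prime hp).symm.le.trans (Y_prime_pow_ge hp ha))
  have hd := delta_le hp a
  have hk : 1 / (2 * (p : ℝ) ^ 2) ≤ 1 / (2 * (P : ℝ) ^ 2) := by
    apply one_div_le_one_div_of_le
    · positivity
    · nlinarith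
  have hk0 : 0 < 1 / (2 * (p : ℝ) ^ 2) := by positivity
  have hY0 : 0 < 2 / (2 * (p : ℝ) + 1) := by positivity
  suffices h : E (p ^ a) - Y (p ^ a) ≤ 1 / (2 * (p : ℝ) ^ 2) * (2 / (2 * (p : ℝ) + 1)) by
    have h2 : 1 / (2 * (p : ℝ) ^ 2) * (2 / (2 * (p : ℝ) + 1)) ≤
        1 / (2 * (P : ℝ) ^ 2) * Y (p ^ a) := by
      apply mul_le_mul hk hY hY0.le (by positivity)
    linarith
  refine hd.trans ?_
  set Q : ℝ := (p : ℝ) with hQ
  rcases Nat.lt_or_ge a 2 with h2 | h2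
  · have ha1 : a = 1 := by omega
    subst ha1
    have e1 : (1 / (2 * Q) + 1 / (6 * Q ^ 2) + 1 / (3 * Q ^ 3) - 1 / (2 * Q ^ (1 + 1))) / (Q ^ (1 + 1) - 1)
        = (3 * Q ^ 2 - 2 * Q + 2) / (6 * Q ^ 3 * ((Q - 1) * (Q + 1))) := by
      have h3 : Q ^ (1 + 1) - 1 = (Q - 1) * (Q + 1) := by ring
      have h4 : Q - 1 ≠ 0 := by linarith
      have h5 : Q + 1 ≠ 0 := by linarith
      have h6 : Q ≠ 0 := by linarith
      rw [h3]
      field_simp
      ring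
    have h4 : 0 < Q - 1 := by linarith
    have hQ0 : 0 < Q := by linarith
    have e2 : 1 / (2 * Q ^ 2) * (2 / (2 * Q + 1)) = 1 / (Q ^ 2 * (2 * Q + 1)) := by
      field_simp
    rw [e1, e2, div_le_div_iff₀ (by positivity) (by positivity)]
    have h5 : (3 * Q ^ 2 - 2 * Q + 2) * (2 * Q + 1) ≤ 6 * Q * ((Q - 1) * (Q + 1)) := by
      nlinarith
    have h6 : 0 ≤ Q ^ 2 := by positivity
    nlinarith [mul_le_mul_of_nonneg_left h5 h6]
  · have hN : Q ^ 3 ≤ Q ^ (a + 1) := pow_le_pow_right₀ (by linarith) (by omega)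
    exact ratio_aux (by linarith) hN

theorem delta_sq_le {p : ℕ} (hp : p.Prime) {a : ℕ} (ha : 2 ≤ a) :
    E (p ^ a) - Y (p ^ a) ≤ 2 / 3 / ((p : ℝ) * ((p : ℝ) ^ 3 - 1)) := by
  refine (delta_le hp a).trans ?_
  have hp2 : (2 : ℝ) ≤ (p : ℝ) := by exact_mod_cast hp.two_le
  set P : ℝ := (p : ℝ) with hPdef
  have hN : P ^ 3 ≤ P ^ (a + 1) := pow_le_pow_right₀ (by linarith) (by omega)
  set N : ℝ := P ^ (a + 1) with hNdef
  have hP0 : 0 < P := by linarith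
  have hP3 : 8 ≤ P ^ 3 := by
    calc (8 : ℝ) = 2 ^ 3 := by norm_num
      _ ≤ P ^ 3 := pow_le_pow_left₀ (by norm_num) hp2 3
  have hN0 : 0 < N := by linarith
  have h1 : (1 / (2 * P) + 1 / (6 * P ^ 2) + 1 / (3 * P ^ 3) - 1 / (2 * N)) / (N - 1) ≤
      (1 / (2 * P) + 1 / (6 * P ^ 2) + 1 / (3 * P ^ 3)) / (P ^ 3 - 1) := by
    apply div_le_div₀
    · positivity
    · have : 0 < 1 / (2 * N) := by positivity
      linarith
    · linarith
    · linarith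
  refine h1.trans ?_
  have h3 : 1 / (2 * P) + 1 / (6 * P ^ 2) + 1 / (3 * P ^ 3) = (3 * P ^ 2 + P + 2) / (6 * P ^ 3) := by
    field_simp
    ring
  rw [h3, ← div_div (2 / 3)]
  apply div_le_div_of_nonneg_right _ (by linarith)
  rw [div_le_div_iff₀ (by positivity) (by positivity)]
  have h5 : 3 * P ^ 2 + P + 2 ≤ 4 * P ^ 2 := by nlinarith
  nlinarith [mul_le_mul_of_nonneg_right h5 hP0.le]

end Pool.Agent.KLI
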