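import Pool.Agent.KLI.Struct

/-!
# Records and the infimum
-/

namespace Pool.Agent.KLI

open Finset

theorem h_eq_exp {n : ℕ} (hn : 0 < n) : h n = Real.exp (Y n) := (exp_Y hn).symm

theorem h_lt_iff {m n : ℕ} (hm : 0 < m) (hn : 0 < n) : h m < h n ↔ Y m < Y n := by
  rw [h_eq_exp hm, h_eq_exp hn, Real.exp_lt_exp]

theorem h_le_iff {m n : ℕ} (hm : 0 < m) (hn : 0 < n) : h m ≤ h n ↔ Y m ≤ Y n := by
  rw [h_eq_exp hm, h_eq_exp hn, Real.exp_le_exp]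

theorem mem_A_iff {n : ℕ} : n ∈ A ↔ 0 < n ∧ Real.log 2 < E n := by
  constructor
  · rintro ⟨h1, h2⟩
    exact ⟨h1, (KL_pos_iff h1).mp h2⟩
  · rintro ⟨h1, h2⟩
    exact ⟨h1, (KL_pos_iff h1).mpr h2⟩

theorem KL_div {n : ℕ} (hn : 0 < n) : KL n / S n = E n - Real.log 2 := by
  have := S_pos hn
  rw [KL_eq]
  unfold E
  field_simp

/-- Records of `h` on the members of `A` satisfying `C`. -/
def Rec (C : ℕ → Prop) : Set ℕ :=
  {n | n ∈ A ∧ C n ∧ ∀ m ∈ A, C m → m < n → h n < h m}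

theorem T_eq : T = Rec (fun _ => True) := by
  ext n
  simp [T, Rec]

theorem To_eq : To = Rec (fun n => Odd n) := rfl

/-- If some `n ∈ A` with `C n` has `h n < c`, then some record has `h n < c`. -/
theorem exists_rec {C : ℕ → Prop} {c : ℝ} (hex : ∃ n ∈ A, C n ∧ h n < c) :
    ∃ n ∈ Rec C, h n < c ∧ ∀ m ∈ A, C m → h m < c → n ≤ m := by
  classical
  obtain ⟨n0, hn0, hC0, hc0⟩ := hex
  have hex' : ∃ n : ℕ, n ∈ A ∧ C n ∧ h n < c := ⟨n0, hn0, hC0, hc0⟩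
  refine ⟨Nat.find hex', ⟨(Nat.find_spec hex').1, (Nat.find_spec hex').2.1, ?_⟩,
    (Nat.find_spec hex').2.2, ?_⟩
  · intro m hm hCm hlt
    have := Nat.find_min hex' hlt
    by_contra hcon
    push Not at hcon
    exact this ⟨hm, hCm, lt_of_le_of_lt hcon (Nat.find_spec hex').2.2⟩
  · intro m hm hCm hlt
    exact Nat.find_min' hex' ⟨hm, hCm, hlt⟩

/-- If the set of records is finite (and there are members), the last record is a minimiser. -/
theorem min_of_finite {C : ℕ → Prop} (hne : ∃ n ∈ A, C n) (hfin : (Rec C).Finite) :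
    ∃ n ∈ Rec C, ∀ m ∈ A, C m → h n ≤ h m := by
  classical
  obtain ⟨n0, hn0, hC0⟩ := hne
  obtain ⟨n1, hn1, -, -⟩ := exists_rec (C := C) (c := h n0 + 1) ⟨n0, hn0, hC0, by linarith⟩
  obtain ⟨n, hn, hmax⟩ := hfin.exists_maximalFor id (Rec C) ⟨n1, hn1⟩
  refine ⟨n, hn, ?_⟩
  intro m hm hCm
  by_contra hlt
  push Not at hlt
  obtain ⟨k, hk, hkc, -⟩ := exists_rec (C := C) (c := h n) ⟨m, hm, hCm, hlt⟩
  rcases lt_trichotomy k n with h1 | h1 | h1
  · have := hn.2.2 k hk.1 hk.2.1 h1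
    linarith
  · subst h1
    exact lt_irrefl _ hkc
  · have := hmax hk h1.le
    simp only [id] at this
    omega

/-- At a minimiser `n`, `KL n ≤ σ(n)/(2p^3)` for every prime `p ∣ n`. -/
theorem near_miss {C : ℕ → Prop} (hC : Adm C) {n : ℕ} (hn : n ∈ A) (hCn : C n)
    (hmin : ∀ m ∈ A, C m → h n ≤ h m) {p : ℕ} (hp : p.Prime) (hpn : p ∣ n) :
    KL n ≤ S n / (2 * (p : ℝ) ^ 3) := by
  obtain ⟨hn0, hE⟩ := mem_A_iff.mp hn
  obtain ⟨a, ha, hle⟩ := exchange hC hn0 hCn (fun n' h1 h2 h3 =>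
    (h_le_iff hn0 h1).mp (hmin n' (mem_A_iff.mpr ⟨h1, h3⟩) h2)) hp hpn
  have hd := delta_le_cube hp ha
  have hS := S_pos hn0
  have h1 := KL_div hn0
  have h2 : KL n / S n ≤ 1 / (2 * (p : ℝ) ^ 3) := by linarith
  rw [div_le_iff₀ hS] at h2
  calc KL n ≤ 1 / (2 * (p : ℝ) ^ 3) * S n := h2
    _ = S n / (2 * (p : ℝ) ^ 3) := by ring

theorem pen_of_mem {n : ℕ} (hn : n ∈ A) : pen n = h n := by
  have h1 : 0 < S n := S_pos hn.1
  have h2 : -KL n / S n ≤ 0 := by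
    apply div_nonpos_of_nonpos_of_nonneg _ h1.le
    linarith [hn.2]
  unfold pen
  rw [max_eq_left h2, Real.exp_zero, mul_one]

theorem pen_of_notMem {n : ℕ} (hn0 : 0 < n) (hn : n ∉ A) :
    E n ≤ Real.log 2 ∧ pen n = Real.exp (Real.log 2 - (E n - Y n)) := by
  have hE : E n ≤ Real.log 2 := by
    by_contra hlt
    push Not at hlt
    exact hn (mem_A_iff.mpr ⟨hn0, hlt⟩)
  refine ⟨hE, ?_⟩
  have h1 := KL_div hn0
  have h2 : -KL n / S n = Real.log 2 - E n := by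
    rw [neg_div, h1]
    ring
  unfold pen
  rw [h2, max_eq_right (by linarith), h_eq_exp hn0, ← Real.exp_add]
  congr 1
  ring

/-- Every penalised value is approached by members of `A`. -/
theorem approach {C : ℕ → Prop} (hC : Adm C) {m : ℕ} (hm : 0 < m) (hCm : C m) {c : ℝ}
    (hc : pen m < c) : ∃ n ∈ A, C n ∧ h n < c := by
  by_cases hA : m ∈ A
  · exact ⟨m, hA, hCm, by rwa [← pen_of_mem hA]⟩
  · obtain ⟨hE, hp⟩ := pen_of_notMem hm hA
    rw [hp] at hc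
    have hc0 : 0 < c := (Real.exp_pos _).trans hc
    have hc1 : Real.log 2 - (E m - Y m) < Real.log c := by
      rwa [Real.lt_log_iff_exp_lt hc0]
    obtain ⟨n, hn, hCn, hEn, hYn⟩ := extend hC hm hCm hE
      (ε := Real.log c - (Real.log 2 - (E m - Y m))) (by linarith)
    refine ⟨n, mem_A_iff.mpr ⟨hn, hEn⟩, hCn, ?_⟩
    rw [h_eq_exp hn, ← Real.lt_log_iff_exp_lt hc0]
    linarith

/-- The exact formula for the infimum. -/
theorem sInf_eq {C : ℕ → Prop} (hC : Adm C) (hne : ∃ n ∈ A, C n) :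
    sInf (h '' {n | n ∈ A ∧ C n}) = sInf (pen '' {n | 1 ≤ n ∧ C n}) := by
  have hb1 : BddBelow (h '' {n | n ∈ A ∧ C n}) := by
    refine ⟨0, ?_⟩
    rintro x ⟨n, hn, rfl⟩
    rw [h_eq_exp hn.1.1]
    exact (Real.exp_pos _).le
  have hb2 : BddBelow (pen '' {n | 1 ≤ n ∧ C n}) := by
    refine ⟨0, ?_⟩
    rintro x ⟨n, hn, rfl⟩
    unfold pen
    rw [h_eq_exp hn.1]
    positivity
  obtain ⟨n0, hn0, hC0⟩ := hne
  apply le_antisymm
  · apply le_csInf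
    · exact ⟨_, ⟨n0, ⟨hn0.1, hC0⟩, rfl⟩⟩
    · rintro x ⟨m, hm, rfl⟩
      by_contra hlt
      push Not at hlt
      obtain ⟨n, hn, hCn, hlt'⟩ := approach hC hm.1 hm.2 hlt
      have := csInf_le hb1 ⟨n, ⟨hn, hCn⟩, rfl⟩
      linarith
  · apply le_csInf
    · exact ⟨_, ⟨n0, ⟨hn0, hC0⟩, rfl⟩⟩
    · rintro x ⟨n, hn, rfl⟩
      rw [← pen_of_mem hn.1]
      exact csInf_le hb2 ⟨n, ⟨hn.1.1, hn.2⟩, rfl⟩

/-- The criterion: infinitely many records if and only if every value of `h` on `A` is undercut by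
the penalised value of a non-member. -/
theorem infinite_iff {C : ℕ → Prop} (hC : Adm C) (hne : ∃ n ∈ A, C n) :
    (Rec C).Infinite ↔ ∀ n ∈ A, C n → ∃ m : ℕ, 1 ≤ m ∧ C m ∧ m ∉ A ∧ pen m < h n := by
  constructor
  · intro hinf n hn hCn
    obtain ⟨hn0, hE⟩ := mem_A_iff.mp hn
    obtain ⟨m, hm, hCm, hEm, hlt⟩ := infinite_imp hC (fun K => by
      obtain ⟨k, hk, hkK⟩ := hinf.exists_gt K
      obtain ⟨hk0, hkE⟩ := mem_A_iff.mp hk.1
      exact ⟨k, hkK, hk.2.1, hkE, fun m hm hCm hEm hmk =>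
        (h_lt_iff hk0 hm).mp (hk.2.2 m (mem_A_iff.mpr ⟨hm, hEm⟩) hCm hmk)⟩) hn0 hCn hE
    have hmA : m ∉ A := fun hmem => absurd (mem_A_iff.mp hmem).2 (by linarith)
    refine ⟨m, hm, hCm, hmA, ?_⟩
    rw [(pen_of_notMem hm hmA).2, h_eq_exp hn0, Real.exp_lt_exp]
    exact hlt
  · intro hall hfin
    obtain ⟨n, hn, hmin⟩ := min_of_finite hne (Set.not_infinite.mp (fun h => h hfin))
    obtain ⟨m, hm, hCm, -, hlt⟩ := hall n hn.1 hn.2.1
    obtain ⟨n', hn', hCn', hlt'⟩ := approach hC hm hCm hlt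
    have := hmin n' hn' hCn'
    linarith

end Pool.Agent.KLI
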