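import Pool.Agent.KLI.Ratio

/-!
# The descent step
-/

namespace Pool.Agent.KLI

open Finset

theorem S_ge {n : ℕ} (hn : 0 < n) : (n : ℝ) ≤ S n := by
  unfold S
  exact Finset.single_le_sum (f := fun d : ℕ => (d : ℝ)) (fun i _ => by positivity)
    (Nat.mem_divisors_self n hn.ne')

theorem Y_nonneg {n : ℕ} (hn : 0 < n) : 0 ≤ Y n := by
  unfold Y
  apply Real.log_nonneg
  have h : (0 : ℝ) < (n : ℝ) := by exact_mod_cast hn
  rw [le_div_iff₀ h, one_mul]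
  exact S_ge hn

theorem E_le_of_ratio {P : ℕ} {κ : ℝ} (hR : Ratio P κ) {m : ℕ} (hm : 0 < m)
    (hP : ∀ p : ℕ, p.Prime → p ∣ m → P ≤ p) : E m ≤ (1 + κ) * Y m := by
  induction m using Nat.recOnPosPrimePosCoprime with
  | prime_pow p n hp hn =>
    exact hR.2 p hp (hP p hp (dvd_pow_self p hn.ne')) n hn
  | zero => omega
  | one => simp [E_one, Y_one]
  | coprime a b ha hb hab iha ihb =>
    have h1 := iha (by omega) (fun p hp h => hP p hp (h.mul_right b))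
    have h2 := ihb (by omega) (fun p hp h => hP p hp (h.mul_left a))
    rw [E_mul (by omega) (by omega) hab, Y_mul (by omega) (by omega) hab]
    linarith

theorem split {q m : ℕ} (hq : q.Prime) (hm : 0 < m) :
    ∃ a m' : ℕ, ¬ q ∣ m' ∧ 0 < m' ∧ m = q ^ a * m' ∧
      E m = E (q ^ a) + E m' ∧ Y m = Y (q ^ a) + Y m' := by
  obtain ⟨a, m', hm', rfl⟩ := Nat.exists_eq_pow_mul_and_not_dvd hm.ne' q hq.ne_one
  have hm'0 : 0 < m' := Nat.pos_of_ne_zero (by rintro rfl; simp at hm')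
  have hqa : 0 < q ^ a := pow_pos hq.pos a
  have hc : (q ^ a).Coprime m' := Nat.Coprime.pow_left a ((Nat.Prime.coprime_iff_not_dvd hq).mpr hm')
  exact ⟨a, m', hm', hm'0, rfl, E_mul hqa hm'0 hc, Y_mul hqa hm'0 hc⟩

theorem Y_ge_of_dvd {q m : ℕ} (hq : q.Prime) (hm : 0 < m) (h : q ∣ m) :
    Real.log (1 + 1 / (q : ℝ)) ≤ Y m := by
  obtain ⟨a, m', hm', hm'0, he, -, hY⟩ := split hq hm
  have ha : 1 ≤ a := by
    rcases Nat.eq_zero_or_pos a with h0 | h0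
    · subst h0
      rw [pow_zero, one_mul] at he
      exact absurd (he ▸ h) hm'
    · exact h0
  rw [hY, ← Y_prime hq]
  have := Y_prime_pow_ge hq ha
  have := Y_nonneg hm'0
  linarith

/-- The state of the descent: all prime factors of `m` are `≥ P`, `E m > L` and `Y m ≤ B`. -/
structure St (m P : ℕ) (L B : ℝ) : Prop where
  pos : 0 < m
  ge : ∀ p : ℕ, p.Prime → p ∣ m → P ≤ p
  hE : L < E m
  hY : Y m ≤ B

/-- If `B < 1/(thr - 1/2)`, all prime factors are at least `thr`. -/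
theorem St.thr {m P : ℕ} {L B : ℝ} (h : St m P L B) {t : ℕ} (ht : 1 < t)
    (hB : B < 2 / (2 * (t : ℝ) - 1)) : ∀ p : ℕ, p.Prime → p ∣ m → t ≤ p := by
  intro p hp hpm
  by_contra hlt
  have hlt' : p ≤ t - 1 := by omega
  have hpt : (p : ℝ) ≤ (t : ℝ) - 1 := by
    have : ((p : ℕ) : ℝ) ≤ ((t - 1 : ℕ) : ℝ) := by exact_mod_cast hlt'
    rwa [Nat.cast_sub (by omega), Nat.cast_one] at this
  have hp0 : (0 : ℝ) < (p : ℝ) := by exact_mod_cast hp.pos
  have h1 := Y_ge_of_dvd hp h.pos hpm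
  have h2 := two_div_le_log hp0
  have h3 : 2 / (2 * (t : ℝ) - 1) ≤ 2 / (2 * (p : ℝ) + 1) := by
    apply div_le_div_of_nonneg_left (by norm_num) (by positivity)
    linarith
  have := h.hY
  linarith

/-- One step of the descent. -/
theorem St.step {m P : ℕ} {L B : ℝ} (h : St m P L B) {q P'' : ℕ} {κ y2 L' B' : ℝ}
    (hq : q.Prime) (hgap : ∀ p : ℕ, p.Prime → p ∣ m → p < P'' → p = q)
    (hR : Ratio P'' κ) (h1 : (1 + κ) * B ≤ L)
    (hy2 : y2 ≤ Real.log (1 + 1 / (q : ℝ) + 1 / (q : ℝ) ^ 2))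
    (h2 : B + 2 / 3 / ((q : ℝ) * ((q : ℝ) ^ 3 - 1)) + κ * (B - y2) ≤ L)
    (hL : L' ≤ L - xq (q : ℝ)) (hB : B - Real.log (1 + 1 / (q : ℝ)) ≤ B') :
    ∃ m' : ℕ, m = q * m' ∧ ¬ q ∣ m' ∧ St m' P'' L' B' ∧
      E m = xq (q : ℝ) + E m' ∧ Y m = Real.log (1 + 1 / (q : ℝ)) + Y m' := by
  obtain ⟨a, m', hm', hm'0, he, hE, hY⟩ := split hq h.pos
  have hge : ∀ p : ℕ, p.Prime → p ∣ m' → P'' ≤ p := by
    intro p hp hpm
    by_contra hlt
    have := hgap p hp (he ▸ hpm.mul_left _) (by omega)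
    exact hm' (this ▸ hpm)
  have hk := hR.1
  have hr := E_le_of_ratio hR hm'0 hge
  have hY' := Y_nonneg hm'0
  have hEm := h.hE
  have hYm := h.hY
  rcases Nat.lt_or_ge a 1 with ha | ha
  · exfalso
    have ha0 : a = 0 := by omega
    subst ha0
    rw [pow_zero, one_mul] at he
    subst he
    have : (1 + κ) * Y m ≤ (1 + κ) * B := mul_le_mul_of_nonneg_left hYm (by linarith)
    linarith
  rcases Nat.lt_or_ge a 2 with ha2 | ha2
  · have ha1 : a = 1 := by omega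
    subst ha1
    rw [E_prime hq] at hE
    rw [Y_prime hq] at hY
    rw [pow_one] at he
    exact ⟨m', he, hm', ⟨hm'0, hge, by linarith, by linarith⟩, hE, hY⟩
  · exfalso
    have hd := delta_sq_le hq ha2
    have hy := Y_prime_pow_ge hq ha2
    rw [Y_prime_sq hq] at hy
    have h3 : Y m' ≤ B - y2 := by linarith
    have h4 : κ * Y m' ≤ κ * (B - y2) := mul_le_mul_of_nonneg_left h3 hk
    have h5 : E m ≤ B + 2 / 3 / ((q : ℝ) * ((q : ℝ) ^ 3 - 1)) + κ * Y m' := by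
      rw [hE]
      have : (1 + κ) * Y m' = Y m' + κ * Y m' := by ring
      linarith
    linarith

theorem xq_le {q a : ℕ} (hq : q = a + 1) (ha : 1 ≤ a) {u : ℝ}
    (h : Real.log (1 + 1 / (a : ℝ)) ≤ u) : xq (q : ℝ) ≤ u * ((q : ℝ) / ((q : ℝ) + 1)) := by
  have ha' : (1 : ℝ) ≤ (a : ℝ) := by exact_mod_cast ha
  have hqa : (q : ℝ) = (a : ℝ) + 1 := by rw [hq]; push_cast; ring
  unfold xq
  apply mul_le_mul_of_nonneg_right _ (by positivity)
  have ha0 : (a : ℝ) ≠ 0 := by linarith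
  have : (q : ℝ) / ((q : ℝ) - 1) = 1 + 1 / (a : ℝ) := by
    rw [hqa, add_sub_cancel_right]
    field_simp
  rw [this]
  exact h

theorem le_xq {q a : ℕ} (hq : q = a + 1) (ha : 1 ≤ a) {u : ℝ}
    (h : u ≤ Real.log (1 + 1 / (a : ℝ))) : u * ((q : ℝ) / ((q : ℝ) + 1)) ≤ xq (q : ℝ) := by
  have ha' : (1 : ℝ) ≤ (a : ℝ) := by exact_mod_cast ha
  have hqa : (q : ℝ) = (a : ℝ) + 1 := by rw [hq]; push_cast; ring
  unfold xq
  apply mul_le_mul_of_nonneg_right _ (by positivity)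
  have ha0 : (a : ℝ) ≠ 0 := by linarith
  have : (q : ℝ) / ((q : ℝ) - 1) = 1 + 1 / (a : ℝ) := by
    rw [hqa, add_sub_cancel_right]
    field_simp
  rw [this]
  exact h

/-- The step with numerical data. -/
theorem St.stepN {m P : ℕ} {L B : ℝ} (h : St m P L B) (q a P'' : ℕ) {κ L' B' u v : ℝ}
    (hq : q.Prime) (hqa : q = a + 1) (hgap : ∀ p : ℕ, p.Prime → p ∣ m → p < P'' → p = q)
    (hR : Ratio P'' κ) (h1 : (1 + κ) * B ≤ L)
    (h2 : B + 2 / 3 / ((q : ℝ) * ((q : ℝ) ^ 3 - 1)) + κ * (B - 2 / (2 * (q : ℝ) + 1)) ≤ L)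
    (hx : Real.log (1 + 1 / (a : ℝ)) ≤ u) (hL : L' ≤ L - u * ((q : ℝ) / ((q : ℝ) + 1)))
    (hy : v ≤ Real.log (1 + 1 / (q : ℝ))) (hB : B - v ≤ B') :
    ∃ m' : ℕ, m = q * m' ∧ ¬ q ∣ m' ∧ St m' P'' L' B' ∧
      E m = xq (q : ℝ) + E m' ∧ Y m = Real.log (1 + 1 / (q : ℝ)) + Y m' := by
  have ha : 1 ≤ a := by
    have := hq.two_le
    omega
  have hxq := xq_le hqa ha hx
  have hq0 : (0 : ℝ) < (q : ℝ) := by exact_mod_cast hq.pos
  have hy2 : 2 / (2 * (q : ℝ) + 1) ≤ Real.log (1 + 1 / (q : ℝ) + 1 / (q : ℝ) ^ 2) := by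
    refine (two_div_le_log hq0).trans ?_
    apply Real.log_le_log (by positivity)
    have : 0 < 1 / (q : ℝ) ^ 2 := by positivity
    linarith
  exact h.step hq hgap hR h1 hy2 h2 (by linarith) (by linarith)

end Pool.Agent.KLI
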