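import Pool.Agent.KLI.Even
import Pool.Agent.KLI.Odd
import Pool.Agent.KLI.Exchange

/-!
# The structure of near-minimisers
-/

namespace Pool.Agent.KLI

open Finset

theorem list_prod (l : List ℕ) (hp : ∀ p ∈ l, p.Prime) (hnd : l.Nodup) :
    0 < l.prod ∧ S l.prod = (l.map (fun p : ℕ => (p : ℝ) + 1)).prod ∧
      E l.prod = (l.map (fun p : ℕ => xq (p : ℝ))).sum := by
  induction l with
  | nil => simp [S_one, E_one]
  | cons a l ih =>
    rw [List.nodup_cons] at hnd
    obtain ⟨h0, h1, h2⟩ := ih (fun p hp' => hp p (List.mem_cons_of_mem a hp')) hnd.2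
    have hap : a.Prime := hp a List.mem_cons_self
    have hco : a.Coprime l.prod := by
      rw [Nat.Prime.coprime_iff_not_dvd hap]
      intro hd
      obtain ⟨r, hr, har⟩ := (Nat.Prime.prime hap).dvd_prod_iff.mp hd
      have := (Nat.prime_dvd_prime_iff_eq hap (hp r (List.mem_cons_of_mem a hr))).mp har
      exact hnd.1 (this ▸ hr)
    rw [List.prod_cons, List.map_cons, List.prod_cons, List.map_cons, List.sum_cons]
    have hEa : E a = xq (a : ℝ) := by
      have := E_prime hap
      rwa [pow_one] at this
    have hSa : S a = (a : ℝ) + 1 := by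
      have := S_prime_pow hap 1
      rw [pow_one] at this
      rw [this]
      simp [Finset.sum_range_succ]
      ring
    refine ⟨Nat.mul_pos hap.pos h0, ?_, ?_⟩
    · rw [S_mul hco, hSa, h1]
    · rw [E_mul hap.pos h0 hco, hEa, h2]

theorem exp_Y {n : ℕ} (hn : 0 < n) : Real.exp (Y n) = S n / n := by
  have hn' : (0 : ℝ) < (n : ℝ) := by exact_mod_cast hn
  have := S_pos hn
  unfold Y
  rw [Real.exp_log (by positivity)]

/-- `E (p^a) - Y (p^a) ≤ 1/(2p^3)`. -/
theorem delta_le_cube {p : ℕ} (hp : p.Prime) {a : ℕ} (ha : 1 ≤ a) :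
    E (p ^ a) - Y (p ^ a) ≤ 1 / (2 * (p : ℝ) ^ 3) := by
  have hp2 : (2 : ℝ) ≤ (p : ℝ) := by exact_mod_cast hp.two_le
  rcases Nat.lt_or_ge a 2 with h2 | h2
  · have ha1 : a = 1 := by omega
    subst ha1
    rcases Nat.lt_or_ge p 3 with h3 | h3
    · have hp2' : p = 2 := by
        have := hp.two_le
        omega
      subst hp2'
      rw [E_prime hp, Y_prime hp]
      have h4 := xq_le (q := 2) (a := 1) (by norm_num) (by norm_num) lg_1.2
      have h5 := lg_2.1
      have h6 : ((693147180559945309417232121458176568075500134360255254120714 : ℕ) : ℝ) / ((10 ^ 60 : ℕ) : ℝ) * (((2 : ℕ) : ℝ) / (((2 : ℕ) : ℝ) + 1)) -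
        ((405465108108164381978013115464349136571990423462494197613991 : ℕ) : ℝ) / ((10 ^ 60 : ℕ) : ℝ) ≤ 1 / (2 * ((2 : ℕ) : ℝ) ^ 3) := by norm_num
      linarith
    · have hp3 : (3 : ℝ) ≤ (p : ℝ) := by exact_mod_cast h3
      refine (delta_le hp 1).trans ?_
      set Q : ℝ := (p : ℝ) with hQ
      have hQ0 : 0 < Q := by linarith
      have hQ1 : 0 < Q ^ 2 - 1 := by nlinarith
      have e1 : (1 / (2 * Q) + 1 / (6 * Q ^ 2) + 1 / (3 * Q ^ 3) - 1 / (2 * Q ^ (1 + 1))) /
          (Q ^ (1 + 1) - 1) = (3 * Q ^ 2 - 2 * Q + 2) / (6 * Q ^ 3 * (Q ^ 2 - 1)) := by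
        have h3 : Q ^ (1 + 1) - 1 = Q ^ 2 - 1 := by ring
        rw [h3]
        have h4 : Q ^ 2 - 1 ≠ 0 := hQ1.ne'
        field_simp
        ring
      rw [e1, div_le_div_iff₀ (by positivity) (by positivity)]
      have h5 : 3 * Q ^ 2 - 2 * Q + 2 ≤ 3 * (Q ^ 2 - 1) := by linarith
      nlinarith [mul_le_mul_of_nonneg_left h5 (by positivity : (0:ℝ) ≤ 2 * Q ^ 3)]
  · refine (delta_sq_le hp h2).trans ?_
    set Q : ℝ := (p : ℝ) with hQ
    have hQ0 : 0 < Q := by linarith
    have hQ3 : 8 ≤ Q ^ 3 := by
      calc (8 : ℝ) = 2 ^ 3 := by norm_num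
        _ ≤ Q ^ 3 := pow_le_pow_left₀ (by norm_num) hp2 3
    rw [div_div, div_le_div_iff₀ (by nlinarith [mul_pos hQ0 (by linarith : (0:ℝ) < Q ^ 3 - 1)]) (by positivity)]
    nlinarith [mul_nonneg (by linarith : (0:ℝ) ≤ Q - 2) (by positivity : (0:ℝ) ≤ Q ^ 3),
      mul_nonneg (by linarith : (0:ℝ) ≤ Q - 2) (by positivity : (0:ℝ) ≤ Q)]

theorem even_struct {n : ℕ} (hn : 0 < n) (hE : Real.log 2 < E n) (h : S n / n < (188295578177717073767318041144311632306512 / 10 ^ 41 : ℝ)) :
    ∃ m : ℕ, n = 2 * 5 * 23 * 401 * 171653 * 4592774273 * m ∧ 382630830258992229 ^ 2 ≤ m ∧ m ≠ 1 ∧ ¬ m.Prime ∧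
      (∀ p : ℕ, p.Prime → p ∣ m → 382630830258992229 ≤ p) ∧ (188295578177717073767318041144311632306511 / 10 ^ 41 : ℝ) < S n / n := by
  obtain ⟨m, he, st, hY⟩ := even_chain hn hE (even_budget hn h)
  have hthr : ∀ p : ℕ, p.Prime → p ∣ m → 382630830258992229 ≤ p := st.thr (by norm_num) (by norm_num)
  have hEm := st.hE
  have hm1 : m ≠ 1 := by
    rintro rfl
    rw [E_one] at hEm
    norm_num at hEm
  have hmp : ¬ m.Prime := by
    intro hp
    have h1 : E m = xq (m : ℝ) := by
      have := E_prime hp
      rwa [pow_one] at this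
    have h2 : ((382630830258992229 : ℕ) : ℝ) ≤ (m : ℝ) := by exact_mod_cast hthr m hp dvd_rfl
    have h3 := xq_anti (by norm_num) h2
    rw [h1] at hEm
    have h4 : (2 * ((382630830258992229 : ℕ) : ℝ) - 1) / (2 * (((382630830258992229 : ℕ) : ℝ) ^ 2 - 1)) ≤ (2613485168780381992961790449029904809269917 / 10 ^ 60) := by
      norm_num
    linarith
  have hsq : 382630830258992229 ^ 2 ≤ m := by
    have h1 := Nat.minFac_sq_le_self st.pos hmp
    have h2 := hthr _ (Nat.minFac_prime hm1) (Nat.minFac_dvd m)
    exact (Nat.pow_le_pow_left h2 2).trans h1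
  refine ⟨m, by rw [he]; ring, hsq, hm1, hmp, hthr, ?_⟩
  have hR := E_le_of_ratio (ratio_two (P := 382630830258992229) (by norm_num)) st.pos hthr
  have hYm : ((2613485168780381992961790449029904800344466 / 10 ^ 60) : ℝ) ≤ Y m := by
    by_contra hlt
    push Not at hlt
    have h1 : (1 + 1 / (2 * ((382630830258992229 : ℕ) : ℝ) ^ 2)) * Y m ≤
        (1 + 1 / (2 * ((382630830258992229 : ℕ) : ℝ) ^ 2)) * (2613485168780381992961790449029904800344466 / 10 ^ 60) :=
      mul_le_mul_of_nonneg_left hlt.le (by positivity)
    have h2 : (1 + 1 / (2 * ((382630830258992229 : ℕ) : ℝ) ^ 2)) * ((2613485168780381992961790449029904800344466 / 10 ^ 60) : ℝ) ≤ (2613485168780381992961790449029904809269917 / 10 ^ 60) := by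
      norm_num
    linarith
  have hx := Real.quadratic_le_exp_of_nonneg (x := (2613485168780381992961790449029904800344466 / 10 ^ 60)) (by norm_num)
  have hx2 : (1 : ℝ) + (2613485168780381992961790449029904800344466 / 10 ^ 60) + (2613485168780381992961790449029904800344466 / 10 ^ 60) ^ 2 / 2 ≤ Real.exp (Y m) := hx.trans (Real.exp_le_exp.mpr hYm)
  rw [← exp_Y hn, hY, Real.exp_add, Real.exp_add, Real.exp_add, Real.exp_add, Real.exp_add, Real.exp_add]
  rw [Real.exp_log (by positivity), Real.exp_log (by positivity), Real.exp_log (by positivity), Real.exp_log (by positivity), Real.exp_log (by positivity), Real.exp_log (by positivity)]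
  refine lt_of_lt_of_le ?_ (mul_le_mul_of_nonneg_left hx2 (by positivity))
  norm_num

theorem even_witness : 0 < 567292355617479792138113438766321162917863712623771519410370688733310 ∧
    Real.log 2 < E 567292355617479792138113438766321162917863712623771519410370688733310 ∧
    S 567292355617479792138113438766321162917863712623771519410370688733310 / ((567292355617479792138113438766321162917863712623771519410370688733310 : ℕ) : ℝ) < (188295578177717073767318041144311632306512 / 10 ^ 41 : ℝ) := by
  have hl := list_prod [(2 : ℕ), 5, 23, 401, 171653, 4592774273, 382630830258999409, 20390518223138934083371564793857] (by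
    simp only [List.mem_cons, List.not_mem_nil, or_false, forall_eq_or_imp, forall_eq]
    exact ⟨by norm_num, by norm_num, by norm_num, by norm_num, by norm_num, prime_4592774273, prime_p7, prime_p8⟩) (by decide +kernel)
  have hN : [(2 : ℕ), 5, 23, 401, 171653, 4592774273, 382630830258999409, 20390518223138934083371564793857].prod = 567292355617479792138113438766321162917863712623771519410370688733310 := by norm_num
  rw [hN] at hl
  obtain ⟨h0, hS, hE⟩ := hl
  refine ⟨h0, ?_, ?_⟩
  · rw [hE]
    simp only [List.map_cons, List.map_nil, List.sum_cons, List.sum_nil]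
    have w0 := le_xq (q := 2) (a := 1) (by norm_num) (by norm_num) lg_1.1
    have w1 := le_xq (q := 5) (a := 4) (by norm_num) (by norm_num) lg_4.1
    have w2 := le_xq (q := 23) (a := 22) (by norm_num) (by norm_num) lg_22.1
    have w3 := le_xq (q := 401) (a := 400) (by norm_num) (by norm_num) lg_400.1
    have w4 := le_xq (q := 171653) (a := 171652) (by norm_num) (by norm_num) lg_171652.1
    have w5 := le_xq (q := 4592774273) (a := 4592774272) (by norm_num) (by norm_num) lg_4592774272.1
    have w6 := le_xq (q := 382630830258999409) (a := 382630830258999408) (by norm_num) (by norm_num) lg_382630830258999408.1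
    have w7 := le_xq (q := 20390518223138934083371564793857) (a := 20390518223138934083371564793856) (by norm_num) (by norm_num) lg_20390518223138934083371564793856.1
    have hl2 := lg_1.2
    have e : (1 : ℝ) + 1 / ((1 : ℕ) : ℝ) = 2 := by norm_num
    rw [e] at hl2
    refine lt_of_lt_of_le ?_ (add_le_add w0 (add_le_add w1 (add_le_add w2 (add_le_add w3 (add_le_add w4 (add_le_add w5 (add_le_add w6 (add_le_add w7 (le_refl (0 : ℝ))))))))))
    refine lt_of_le_of_lt hl2 ?_
    norm_num
  · rw [hS]
    simp only [List.map_cons, List.map_nil, List.prod_cons, List.prod_nil]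
    norm_num

theorem odd_struct {n : ℕ} (hn : 0 < n) (ho : Odd n) (hE : Real.log 2 < E n) (h : S n / n < (195746417894492885881916834768066886209421253240812 / 10 ^ 50 : ℝ)) :
    ∃ m : ℕ, n = 3 * 5 * 7 * 17 * 97 * 1429 * 2716501 * 263181260437 * m ∧ 40392796109160158585868 ^ 2 ≤ m ∧ m ≠ 1 ∧ ¬ m.Prime ∧
      (∀ p : ℕ, p.Prime → p ∣ m → 40392796109160158585868 ≤ p) ∧ (195746417894492885881916834768066886209421253240811 / 10 ^ 50 : ℝ) < S n / n := by
  obtain ⟨m, he, st, hY⟩ := odd_chain hn ho hE (odd_budget hn h)
  have hthr : ∀ p : ℕ, p.Prime → p ∣ m → 40392796109160158585868 ≤ p := st.thr (by norm_num) (by norm_num)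
  have hEm := st.hE
  have hm1 : m ≠ 1 := by
    rintro rfl
    rw [E_one] at hEm
    norm_num at hEm
  have hmp : ¬ m.Prime := by
    intro hp
    have h1 : E m = xq (m : ℝ) := by
      have := E_prime hp
      rwa [pow_one] at this
    have h2 : ((40392796109160158585868 : ℕ) : ℝ) ≤ (m : ℝ) := by exact_mod_cast hthr m hp dvd_rfl
    have h3 := xq_anti (by norm_num) h2
    rw [h1] at hEm
    have h4 : (2 * ((40392796109160158585868 : ℕ) : ℝ) - 1) / (2 * (((40392796109160158585868 : ℕ) : ℝ) ^ 2 - 1)) ≤ (24756889750774717073623347838886585386 / 10 ^ 60) := by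
      norm_num
    linarith
  have hsq : 40392796109160158585868 ^ 2 ≤ m := by
    have h1 := Nat.minFac_sq_le_self st.pos hmp
    have h2 := hthr _ (Nat.minFac_prime hm1) (Nat.minFac_dvd m)
    exact (Nat.pow_le_pow_left h2 2).trans h1
  refine ⟨m, by rw [he]; ring, hsq, hm1, hmp, hthr, ?_⟩
  have hR := E_le_of_ratio (ratio_two (P := 40392796109160158585868) (by norm_num)) st.pos hthr
  have hYm : ((24756889750774717073623347838886585385 / 10 ^ 60) : ℝ) ≤ Y m := by
    by_contra hlt
    push Not at hlt
    have h1 : (1 + 1 / (2 * ((40392796109160158585868 : ℕ) : ℝ) ^ 2)) * Y m ≤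
        (1 + 1 / (2 * ((40392796109160158585868 : ℕ) : ℝ) ^ 2)) * (24756889750774717073623347838886585385 / 10 ^ 60) :=
      mul_le_mul_of_nonneg_left hlt.le (by positivity)
    have h2 : (1 + 1 / (2 * ((40392796109160158585868 : ℕ) : ℝ) ^ 2)) * ((24756889750774717073623347838886585385 / 10 ^ 60) : ℝ) ≤ (24756889750774717073623347838886585386 / 10 ^ 60) := by
      norm_num
    linarith
  have hx := Real.quadratic_le_exp_of_nonneg (x := (24756889750774717073623347838886585385 / 10 ^ 60)) (by norm_num)
  have hx2 : (1 : ℝ) + (24756889750774717073623347838886585385 / 10 ^ 60) + (24756889750774717073623347838886585385 / 10 ^ 60) ^ 2 / 2 ≤ Real.exp (Y m) := hx.trans (Real.exp_le_exp.mpr hYm)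
  rw [← exp_Y hn, hY, Real.exp_add, Real.exp_add, Real.exp_add, Real.exp_add, Real.exp_add, Real.exp_add, Real.exp_add, Real.exp_add]
  rw [Real.exp_log (by positivity), Real.exp_log (by positivity), Real.exp_log (by positivity), Real.exp_log (by positivity), Real.exp_log (by positivity), Real.exp_log (by positivity), Real.exp_log (by positivity), Real.exp_log (by positivity)]
  refine lt_of_lt_of_le ?_ (mul_le_mul_of_nonneg_left hx2 (by positivity))
  norm_num

theorem odd_witness : 0 < 42978338396338115486405177111231857259726268272243174141535211608661758718078218000408945 ∧ Odd 42978338396338115486405177111231857259726268272243174141535211608661758718078218000408945 ∧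
    Real.log 2 < E 42978338396338115486405177111231857259726268272243174141535211608661758718078218000408945 ∧
    S 42978338396338115486405177111231857259726268272243174141535211608661758718078218000408945 / ((42978338396338115486405177111231857259726268272243174141535211608661758718078218000408945 : ℕ) : ℝ) < (195746417894492885881916834768066886209421253240812 / 10 ^ 50 : ℝ) := by
  have hl := list_prod [(3 : ℕ), 5, 7, 17, 97, 1429, 2716501, 263181260437, 40392796109160158857117, 6015042335875269671743482165491610419201] (by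
    simp only [List.mem_cons, List.not_mem_nil, or_false, forall_eq_or_imp, forall_eq]
    exact ⟨by norm_num, by norm_num, by norm_num, by norm_num, by norm_num, by norm_num, by norm_num, prime_263181260437, prime_p9, prime_p10⟩) (by decide +kernel)
  have hN : [(3 : ℕ), 5, 7, 17, 97, 1429, 2716501, 263181260437, 40392796109160158857117, 6015042335875269671743482165491610419201].prod = 42978338396338115486405177111231857259726268272243174141535211608661758718078218000408945 := by norm_num
  rw [hN] at hl
  obtain ⟨h0, hS, hE⟩ := hl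
  refine ⟨h0, by decide +kernel, ?_, ?_⟩
  · rw [hE]
    simp only [List.map_cons, List.map_nil, List.sum_cons, List.sum_nil]
    have w0 := le_xq (q := 3) (a := 2) (by norm_num) (by norm_num) lg_2.1
    have w1 := le_xq (q := 5) (a := 4) (by norm_num) (by norm_num) lg_4.1
    have w2 := le_xq (q := 7) (a := 6) (by norm_num) (by norm_num) lg_6.1
    have w3 := le_xq (q := 17) (a := 16) (by norm_num) (by norm_num) lg_16.1
    have w4 := le_xq (q := 97) (a := 96) (by norm_num) (by norm_num) lg_96.1
    have w5 := le_xq (q := 1429) (a := 1428) (by norm_num) (by norm_num) lg_1428.1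
    have w6 := le_xq (q := 2716501) (a := 2716500) (by norm_num) (by norm_num) lg_2716500.1
    have w7 := le_xq (q := 263181260437) (a := 263181260436) (by norm_num) (by norm_num) lg_263181260436.1
    have w8 := le_xq (q := 40392796109160158857117) (a := 40392796109160158857116) (by norm_num) (by norm_num) lg_40392796109160158857116.1
    have w9 := le_xq (q := 6015042335875269671743482165491610419201) (a := 6015042335875269671743482165491610419200) (by norm_num) (by norm_num) lg_6015042335875269671743482165491610419200.1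
    have hl2 := lg_1.2
    have e : (1 : ℝ) + 1 / ((1 : ℕ) : ℝ) = 2 := by norm_num
    rw [e] at hl2
    refine lt_of_lt_of_le ?_ (add_le_add w0 (add_le_add w1 (add_le_add w2 (add_le_add w3 (add_le_add w4 (add_le_add w5 (add_le_add w6 (add_le_add w7 (add_le_add w8 (add_le_add w9 (le_refl (0 : ℝ))))))))))))
    refine lt_of_le_of_lt hl2 ?_
    norm_num
  · rw [hS]
    simp only [List.map_cons, List.map_nil, List.prod_cons, List.prod_nil]
    norm_num

end Pool.Agent.KLI
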